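import Mathlib

/-!
# Few exceptional primes

`G` acts on the abelian group `A` by automorphisms. If for each prime `l ∈ P` some conjugate `g ρ ≠ ρ` has the same
`l`-th power as `ρ`, then `ρ` has at least `2 ^ #P` conjugates.
-/

set_option autoImplicit false

namespace Pool.Agent.H84.PT2

theorem exc_order {G A : Type*} [Group G] [CommGroup A] [MulDistribMulAction G A] (ρ : A)
    (P : Finset ℕ) (hP : ∀ l ∈ P, l.Prime)
    (h : ∀ l ∈ P, ∃ g : G, (g • ρ) ^ l = ρ ^ l ∧ g • ρ ≠ ρ) :
    ∃ g : G, orderOf (g • ρ / ρ) = ∏ l ∈ P, l := by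
  classical
  induction P using Finset.induction_on with
  | empty => exact ⟨1, by simp⟩
  | insert l P hl ih =>
    obtain ⟨g, hg⟩ := ih (fun q hq => hP q (Finset.mem_insert_of_mem hq))
      (fun q hq => h q (Finset.mem_insert_of_mem hq))
    obtain ⟨k, hk1, hk2⟩ := h l (Finset.mem_insert_self l P)
    have hlp : l.Prime := hP l (Finset.mem_insert_self l P)
    have ho : orderOf (k • ρ / ρ) = l := by
      have := Fact.mk hlp
      refine orderOf_eq_prime ?_ ?_
      · rw [div_pow, hk1, div_self']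
      · rw [Ne, div_eq_one]
        exact hk2
    have ho2 : orderOf (g • (k • ρ / ρ)) = l := by
      have := MulEquiv.orderOf_eq (MulDistribMulAction.toMulEquiv A g) (k • ρ / ρ)
      rw [← ho]
      exact this
    refine ⟨g * k, ?_⟩
    have e : (g * k) • ρ / ρ = (g • (k • ρ / ρ)) * (g • ρ / ρ) := by
      rw [smul_div', mul_smul, div_mul_div_cancel]
    rw [e, (Commute.all _ _).orderOf_mul_eq_mul_orderOf_of_coprime, ho2, hg,
      Finset.prod_insert hl]
    rw [ho2, hg]
    refine Nat.Coprime.prod_right fun q hq => ?_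
    exact (Nat.coprime_primes hlp (hP q (Finset.mem_insert_of_mem hq))).2
      (fun e => hl (e ▸ hq))

theorem exc_primes {G A : Type*} [Group G] [CommGroup A] [MulDistribMulAction G A] (ρ : A)
    (P : Finset ℕ) (hP : ∀ l ∈ P, l.Prime)
    (h : ∀ l ∈ P, ∃ g : G, (g • ρ) ^ l = ρ ^ l ∧ g • ρ ≠ ρ)
    (hfin : (MulAction.orbit G ρ).Finite) :
    2 ^ P.card ≤ (MulAction.orbit G ρ).ncard := by
  classical
  have hJ : ∀ J ∈ P.powerset, ∃ g : G, orderOf (g • ρ / ρ) = ∏ l ∈ J, l := fun J hJ =>
    exc_order ρ J (fun l hl => hP l (Finset.mem_powerset.1 hJ hl))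
      (fun l hl => h l (Finset.mem_powerset.1 hJ hl))
  choose! g hg using hJ
  rw [← Finset.card_powerset, Set.ncard_eq_toFinset_card _ hfin]
  refine Finset.card_le_card_of_injOn (fun J => g J • ρ) ?_ ?_
  · intro J _
    simp only [Set.Finite.coe_toFinset]
    exact MulAction.mem_orbit ρ (g J)
  · intro J hJ J' hJ' e
    have e' : g J • ρ = g J' • ρ := e
    have h1 := hg J hJ
    have h2 := hg J' hJ'
    rw [e', h2] at h1
    have h3 := congrArg Nat.primeFactors h1
    rw [Nat.primeFactors_prod (fun l hl => hP l (Finset.mem_powerset.1 hJ' hl)),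
      Nat.primeFactors_prod (fun l hl => hP l (Finset.mem_powerset.1 hJ hl))] at h3
    exact h3.symm

end Pool.Agent.H84.PT2
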