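import Mathlib

/-!
# A linear subspace of `E × E` with both projections onto

`V` a `k`-subspace of `E × E` (`E` a field) which contains `(1, 1)` and projects onto both factors. Either `V` lies
in the graph of an automorphism (`v.1 = φ v.2`), or `E × 0` is contained in `V V V`.
-/

set_option autoImplicit false

namespace Pool.Agent.H84.PT2

theorem sep3 {k E : Type*} [Field k] [Field E] [Algebra k E] (V : Submodule k (E × E))
    (h1 : ((1 : E), (1 : E)) ∈ V) (hfst : ∀ a : E, ∃ b : E, (a, b) ∈ V)
    (hsnd : ∀ b : E, ∃ a : E, (a, b) ∈ V) :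
    (∃ φ : E ≃ₐ[k] E, ∀ v ∈ V, v.1 = φ v.2) ∨ ∀ x : E, ((x, 0) : E × E) ∈ V * V * V := by
  classical
  -- a nonzero element `(c, 0)` of `V V` is enough
  have key : ∀ c : E, c ≠ 0 → ((c, 0) : E × E) ∈ V * V → ∀ x : E, ((x, 0) : E × E) ∈ V * V * V := by
    intro c hc hcV x
    obtain ⟨b, hb⟩ := hfst (x / c)
    have := Submodule.mul_mem_mul hcV hb
    have h2 : ((c, 0) : E × E) * (x / c, b) = (x, 0) := by
      rw [Prod.mk_mul_mk, zero_mul, mul_div_cancel₀ _ hc]
    rwa [h2] at this
  by_cases hc : ∃ c : E, c ≠ 0 ∧ ((c, 0) : E × E) ∈ V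
  · obtain ⟨c, hc0, hcV⟩ := hc
    refine Or.inr (key c hc0 ?_)
    have := Submodule.mul_mem_mul hcV h1
    simpa using this
  · have hinj : ∀ v ∈ V, ∀ w ∈ V, v.2 = w.2 → v.1 = w.1 := by
      intro v hv w hw h
      by_contra hne
      refine hc ⟨v.1 - w.1, sub_ne_zero.2 hne, ?_⟩
      have := V.sub_mem hv hw
      have h2 : v - w = (v.1 - w.1, 0) := by
        ext
        · rfl
        · simp [h]
      rwa [h2] at this
    choose f hf using hsnd
    have hfun : ∀ v ∈ V, v.1 = f v.2 := fun v hv => hinj v hv _ (hf v.2) rfl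
    have hf1 : f 1 = 1 := (hfun _ h1).symm
    have hf0 : f 0 = 0 := (hfun _ V.zero_mem).symm
    have hfadd : ∀ a b, f (a + b) = f a + f b := fun a b => by
      have := hfun _ (V.add_mem (hf a) (hf b))
      simpa using this.symm
    have hfsmul : ∀ (r : k) (a : E), f (r • a) = r • f a := fun r a => by
      have := hfun _ (V.smul_mem r (hf a))
      simpa using this.symm
    by_cases hm : ∀ a b, f (a * b) = f a * f b
    · refine Or.inl ?_
      let g : E →ₐ[k] E :=
        { toFun := f
          map_one' := hf1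
          map_mul' := hm
          map_zero' := hf0
          map_add' := hfadd
          commutes' := fun r => by
            rw [Algebra.algebraMap_eq_smul_one, hfsmul, hf1] }
      have hg : Function.Bijective g := by
        refine ⟨g.toRingHom.injective, fun a => ?_⟩
        obtain ⟨b, hb⟩ := hfst a
        exact ⟨b, (hfun _ hb).symm⟩
      exact ⟨AlgEquiv.ofBijective g hg, fun v hv => hfun v hv⟩
    · push Not at hm
      obtain ⟨a, b, hab⟩ := hm
      refine Or.inr (key (f a * f b - f (a * b)) (sub_ne_zero.2 (Ne.symm hab)) ?_)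
      have h3 := Submodule.mul_mem_mul (hf a) (hf b)
      have h4 : ((f (a * b), a * b) : E × E) ∈ V * V := by
        have := Submodule.mul_mem_mul (hf (a * b)) h1
        simpa using this
      have := (V * V).sub_mem h3 h4
      simpa using this

end Pool.Agent.H84.PT2
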