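import Mathlib

/-!
# Counting classes

A finite set with an equivalence relation: if `s` is the number of the classes, the number of the points which are not
alone in their class is at most `2 (D - s)`.
-/

set_option autoImplicit false

namespace Pool.Agent.H84.PT2

theorem cls_count {X : Type*} [Fintype X] (r : Setoid X) :
    ∃ (s : ℕ) (cls : X → Fin s), s ≤ Fintype.card X ∧ (∀ j j', cls j = cls j' ↔ r j j') ∧
      ∀ bd : Finset X, (∀ j ∈ bd, ∃ j', j' ≠ j ∧ r j j') → bd.card ≤ 2 * (Fintype.card X - s) := by
  classical
  have hft : Fintype (Quotient r) := Fintype.ofFinite _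
  obtain ⟨s, hs⟩ : ∃ s, s = Fintype.card (Quotient r) := ⟨_, rfl⟩
  let e : Quotient r ≃ Fin s := Fintype.equivFinOfCardEq hs.symm
  let cls : X → Fin s := fun j => e (Quotient.mk r j)
  have hcls : ∀ j j', cls j = cls j' ↔ r j j' := by
    intro j j'
    constructor
    · intro h
      exact Quotient.exact (e.injective h)
    · intro h
      exact congrArg e (Quotient.sound h)
  let fib : Fin s → Finset X := fun a => Finset.univ.filter fun j => cls j = a
  have hfib : ∀ a, 1 ≤ (fib a).card := by
    intro a
    obtain ⟨q, hq⟩ := e.surjective a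
    obtain ⟨j, hj⟩ := Quotient.exists_rep q
    refine Finset.card_pos.2 ⟨j, Finset.mem_filter.2 ⟨Finset.mem_univ _, ?_⟩⟩
    change e (Quotient.mk r j) = a
    rw [hj, hq]
  have hsum : ∑ a : Fin s, (fib a).card = Fintype.card X := by
    rw [← Finset.card_univ (α := X)]
    exact (Finset.card_eq_sum_card_fiberwise (f := cls) (t := Finset.univ)
      (fun x _ => Finset.mem_univ _)).symm
  have hsle : s ≤ Fintype.card X := by
    rw [← hsum]
    calc s = ∑ _a : Fin s, 1 := by simp
      _ ≤ ∑ a : Fin s, (fib a).card := Finset.sum_le_sum fun a _ => hfib a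
  refine ⟨s, cls, hsle, hcls, fun bd hbd => ?_⟩
  have h1 : bd.card = ∑ a : Fin s, (bd.filter fun j => cls j = a).card :=
    Finset.card_eq_sum_card_fiberwise (f := cls) (t := Finset.univ)
      (fun x _ => Finset.mem_univ _)
  have h2 : ∀ a : Fin s, (bd.filter fun j => cls j = a).card + 2 ≤ 2 * (fib a).card := by
    intro a
    by_cases hne : (bd.filter fun j => cls j = a).Nonempty
    · obtain ⟨j, hj⟩ := hne
      obtain ⟨hjb, hja⟩ := Finset.mem_filter.1 hj
      obtain ⟨j', hj', hr⟩ := hbd j hjb
      have h3 : 2 ≤ (fib a).card := by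
        have h4 : ({j, j'} : Finset X) ⊆ fib a := by
          intro x hx
          rcases Finset.mem_insert.1 hx with h | h
          · rw [h]
            exact Finset.mem_filter.2 ⟨Finset.mem_univ _, hja⟩
          · rw [Finset.mem_singleton.1 h]
            refine Finset.mem_filter.2 ⟨Finset.mem_univ _, ?_⟩
            rw [← hja]
            exact ((hcls j j').2 hr).symm
        have h5 := Finset.card_le_card h4
        rwa [Finset.card_pair hj'.symm] at h5
      have h4 : (bd.filter fun j => cls j = a).card ≤ (fib a).card :=
        Finset.card_le_card (Finset.filter_subset_filter _ (Finset.subset_univ _))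
      omega
    · rw [Finset.not_nonempty_iff_eq_empty.1 hne, Finset.card_empty]
      have := hfib a
      omega
  have h3 : ∑ a : Fin s, ((bd.filter fun j => cls j = a).card + 2) ≤
      ∑ a : Fin s, 2 * (fib a).card := Finset.sum_le_sum fun a _ => h2 a
  rw [Finset.sum_add_distrib, ← h1, ← Finset.mul_sum, hsum, Finset.sum_const, Finset.card_univ,
    Fintype.card_fin, smul_eq_mul] at h3
  omega

end Pool.Agent.H84.PT2
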