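import Pool.Agent.H84.PT2.Val

/-!
# The number of the embeddings with a given prime

`C` an algebraically closed ultrametric normed field of characteristic zero with `‖l‖ < 1`, `P` a prime of `𝓞 E` over
`l`: exactly `e_P f_P` embeddings `κ : E → C` have `{x : ‖κ x‖ < 1} = P`. So at most `2 v_l(discr E)` of the
embeddings are ramified.
-/

set_option autoImplicit false
set_option linter.unusedSectionVars false

open NumberField Ideal

namespace Pool.Agent.H84.PT2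

variable {E : Type*} [Field E] [NumberField E]

theorem map_span_l (l : ℕ) :
    Ideal.map (algebraMap ℤ (𝓞 E)) (span {(l : ℤ)}) = span {(l : 𝓞 E)} := by
  rw [Ideal.map_span, Set.image_singleton]
  simp

theorem mem_over_of_mem (l : ℕ) [Fact l.Prime] (P : Ideal (𝓞 E)) (hP : P.IsPrime)
    (h : (l : 𝓞 E) ∈ P) : P ∈ overP E l := by
  rw [mem_over]
  refine ⟨hP, ⟨?_⟩⟩
  have h1 : (span {(l : ℤ)} : Ideal ℤ) ≤ Ideal.under ℤ P := by
    rw [span_singleton_le_iff_mem, Ideal.under_def, Ideal.mem_comap]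
    simpa using h
  have h2 : Ideal.under ℤ P ≠ ⊤ := (Ideal.IsPrime.under ℤ P).ne_top
  exact (span_max l).eq_of_le h2 h1

theorem l_mem_over (l : ℕ) [Fact l.Prime] {P : Ideal (𝓞 E)} (hP : P ∈ overP E l) :
    (l : 𝓞 E) ∈ P := by
  have h1 := ((mem_over E l).1 hP).2
  have h2 : (l : ℤ) ∈ Ideal.under ℤ P := by
    rw [← h1.over]
    exact Ideal.mem_span_singleton_self _
  rw [Ideal.under_def, Ideal.mem_comap] at h2
  simpa using h2

/-- an ideal in no prime over `l` has norm prime to `l` -/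
theorem norm_coprime (l : ℕ) [hl : Fact l.Prime] (J : Ideal (𝓞 E)) (hJ0 : J ≠ ⊥)
    (hJ : ∀ Q ∈ overP E l, ¬ J ≤ Q) : ¬ l ∣ absNorm J := by
  intro hdvd
  have hsup : J ⊔ span {(l : 𝓞 E)} = ⊤ := by
    by_contra hne
    obtain ⟨M, hM, hle⟩ := Ideal.exists_le_maximal _ hne
    have hlM : (l : 𝓞 E) ∈ M := hle (Ideal.mem_sup_right (Ideal.mem_span_singleton_self _))
    exact hJ M (mem_over_of_mem l M hM.isPrime hlM) (le_sup_left.trans hle)
  have h1 : (1 : 𝓞 E) ∈ J ⊔ span {(l : 𝓞 E)} := by rw [hsup]; trivial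
  obtain ⟨j, hj, c, hc, hjc⟩ := Submodule.mem_sup.1 h1
  obtain ⟨d, hd⟩ := Ideal.mem_span_singleton'.1 hc
  have hfin : Finite (𝓞 E ⧸ J) := Ideal.finiteQuotientOfFreeOfNeBot _ hJ0
  have hft := Fintype.ofFinite (𝓞 E ⧸ J)
  have hcard : l ∣ Fintype.card (𝓞 E ⧸ J) := by
    rwa [Ideal.absNorm_apply, Submodule.cardQuot_apply, Nat.card_eq_fintype_card] at hdvd
  obtain ⟨x, hx⟩ := exists_prime_addOrderOf_dvd_card l hcard
  have hlx : (l : 𝓞 E ⧸ J) * x = 0 := by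
    rw [← nsmul_eq_mul, ← hx]
    exact addOrderOf_nsmul_eq_zero x
  have h2 : (1 : 𝓞 E ⧸ J) = Ideal.Quotient.mk J d * (l : 𝓞 E ⧸ J) := by
    rw [← map_one (Ideal.Quotient.mk J), ← hjc, map_add, Ideal.Quotient.eq_zero_iff_mem.2 hj,
      zero_add, ← hd, map_mul, map_natCast]
  have h3 : x = 0 := by
    calc x = 1 * x := (one_mul x).symm
      _ = Ideal.Quotient.mk J d * ((l : 𝓞 E ⧸ J) * x) := by rw [h2, mul_assoc]
      _ = 0 := by rw [hlx, mul_zero]
  rw [h3, addOrderOf_zero] at hx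
  exact hl.out.one_lt.ne hx

/-- a uniformizer of `P` which is prime to the other primes over `l` -/
theorem exists_pi (l : ℕ) [hl : Fact l.Prime] (P : Ideal (𝓞 E)) (hP : P ∈ overP E l) :
    ∃ (π : 𝓞 E) (J : Ideal (𝓞 E)), π ≠ 0 ∧ span {π} = P * J ∧ (∀ Q ∈ overP E l, ¬ J ≤ Q) ∧
      ∀ Q ∈ overP E l, Q ≠ P → π ∉ Q := by
  classical
  have hPp : P.IsPrime := ((mem_over E l).1 hP).1
  have hP0 := over_ne E l hP
  obtain ⟨π₀, h1, h2⟩ := Ideal.exists_mem_pow_notMem_pow_succ P hP0 hPp.ne_top 1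
  obtain ⟨π, hπ⟩ := IsDedekindDomain.exists_forall_sub_mem_ideal (s := overP E l)
    (fun Q : Ideal (𝓞 E) => Q) (fun Q => if Q = P then 2 else 1)
    (fun Q hQ => Ideal.prime_of_isPrime (over_ne E l hQ) ((mem_over E l).1 hQ).1)
    (fun Q _ R _ h => h) (fun Q => if (Q : Ideal (𝓞 E)) = P then π₀ else 1)
  have hπP := hπ P hP
  simp only [if_true] at hπP
  have hπ1 : π ∈ P := by
    have h3 : π - π₀ ∈ P := (Ideal.pow_le_self two_ne_zero) hπP
    rw [pow_one] at h1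
    have := P.add_mem h3 h1
    simpa using this
  have hπ2 : π ∉ P ^ 2 := by
    intro h
    apply h2
    have := (P ^ 2).sub_mem h hπP
    simpa using this
  have hπQ : ∀ Q ∈ overP E l, Q ≠ P → π ∉ Q := by
    intro Q hQ hQP h
    have h3 := hπ Q hQ
    simp only [if_neg hQP, pow_one] at h3
    have h4 : (1 : 𝓞 E) ∈ Q := by
      have := Q.sub_mem h h3
      simpa using this
    exact ((mem_over E l).1 hQ).1.ne_top ((Ideal.eq_top_iff_one _).2 h4)
  obtain ⟨J, hJ⟩ := dvd_iff_le.2 ((span_singleton_le_iff_mem P).2 hπ1)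
  have hπ0 : π ≠ 0 := by
    rintro rfl
    exact hπ2 (zero_mem _)
  refine ⟨π, J, hπ0, hJ, ?_, hπQ⟩
  intro Q hQ hle
  by_cases hQP : Q = P
  · rw [hQP] at hle
    obtain ⟨R, hR⟩ := dvd_iff_le.2 hle
    apply hπ2
    rw [← span_singleton_le_iff_mem, hJ, hR, ← mul_assoc, ← sq]
    exact Ideal.mul_le_left
  · apply hπQ Q hQ hQP
    rw [← span_singleton_le_iff_mem, hJ]
    exact Ideal.mul_le_right.trans hle

section

variable {C : Type*} [NormedField C] [IsUltrametricDist C]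

theorem norm_nat_one (l : ℕ) (hl : l.Prime) (hl1 : ‖(l : C)‖ < 1) (m : ℕ) (hm : ¬ l ∣ m) :
    ‖(m : C)‖ = 1 := by
  refine le_antisymm (IsUltrametricDist.norm_natCast_le_one C m) (not_lt.1 fun h => ?_)
  have hc : IsCoprime (l : ℤ) (m : ℤ) :=
    Nat.isCoprime_iff_coprime.2 ((Nat.Prime.coprime_iff_not_dvd hl).2 hm)
  obtain ⟨a, b, hab⟩ := hc
  have h1 : (a : C) * (l : C) + (b : C) * (m : C) = 1 := by exact_mod_cast congrArg (Int.cast (R := C)) hab
  have h2 : ‖(a : C) * (l : C) + (b : C) * (m : C)‖ < 1 := by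
    refine (IsUltrametricDist.norm_add_le_max _ _).trans_lt (max_lt ?_ ?_)
    · rw [norm_mul]
      exact (mul_le_of_le_one_left (norm_nonneg _) (IsUltrametricDist.norm_intCast_le_one C a)).trans_lt hl1
    · rw [norm_mul]
      exact (mul_le_of_le_one_left (norm_nonneg _) (IsUltrametricDist.norm_intCast_le_one C b)).trans_lt h
  rw [h1, norm_one] at h2
  exact lt_irrefl _ h2

/-- the value of the uniformizer -/
theorem pi_value (κ : E →+* C) (l : ℕ) [hl : Fact l.Prime] (hl1 : ‖(l : C)‖ < 1) (π : 𝓞 E)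
    (J : Ideal (𝓞 E)) (hJ : span {π} = kerP κ * J) (hJ2 : ¬ J ≤ kerP κ) :
    ‖κ (π : E)‖ ^ eP E l (kerP κ) = ‖(l : C)‖ := by
  classical
  have hP := kerP_over κ l hl1
  have hPp := kerP_prime κ
  obtain ⟨e, he⟩ : ∃ e, e = eP E l (kerP κ) := ⟨_, rfl⟩
  have he' : e = ramificationIdx' (span {(l : ℤ)}) (kerP κ) := he
  have hl0 : (l : 𝓞 E) ≠ 0 := by exact_mod_cast hl.out.ne_zero
  have hne : Ideal.map (algebraMap ℤ (𝓞 E)) (span {(l : ℤ)}) ≠ ⊥ := by
    rw [map_span_l, Ne, span_singleton_eq_bot]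
    exact hl0
  rw [← he]
  have h1 : kerP κ ^ e ∣ span {(l : 𝓞 E)} := by
    rw [← map_span_l]
    exact dvd_iff_le.2 (le_pow_of_le_ramificationIdx' he'.le)
  obtain ⟨Q, hQ⟩ := h1
  have h2 : ¬ Q ≤ kerP κ := by
    intro h
    obtain ⟨R, hR⟩ := dvd_iff_le.2 h
    have h3 : kerP κ ^ (e + 1) ∣ Ideal.map (algebraMap ℤ (𝓞 E)) (span {(l : ℤ)}) := by
      rw [map_span_l, hQ, hR]
      exact ⟨R, by ring⟩
    have h4 := IsDedekindDomain.ramificationIdx'_eq_multiplicity hne hPp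
    have h5 : FiniteMultiplicity (kerP κ) (Ideal.map (algebraMap ℤ (𝓞 E)) (span {(l : ℤ)})) :=
      FiniteMultiplicity.of_not_isUnit
        (fun h => hPp.ne_top (Ideal.isUnit_iff.1 h)) hne
    have h6 := h5.le_multiplicity_of_pow_dvd h3
    rw [← h4, ← he'] at h6
    omega
  obtain ⟨s, hs, hsP⟩ := SetLike.not_le_iff_exists.1 h2
  obtain ⟨u, hu, huP⟩ := SetLike.not_le_iff_exists.1 hJ2
  have hπP : π ∈ kerP κ := by
    rw [← span_singleton_le_iff_mem, hJ]
    exact Ideal.mul_le_left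
  apply le_antisymm
  · have h3 : π ^ e * s ∈ span {(l : 𝓞 E)} := by
      rw [hQ]
      exact Ideal.mul_mem_mul (Ideal.pow_mem_pow hπP e) hs
    obtain ⟨t, ht⟩ := Ideal.mem_span_singleton'.1 h3
    have h4 : ‖κ ((π ^ e * s : 𝓞 E) : E)‖ = ‖κ ((t * (l : 𝓞 E) : 𝓞 E) : E)‖ := by rw [ht]
    have h5 : ‖κ ((π ^ e * s : 𝓞 E) : E)‖ = ‖κ (π : E)‖ ^ e := by simp [kerP_not κ hsP]
    have h6 : ‖κ ((t * (l : 𝓞 E) : 𝓞 E) : E)‖ = ‖κ (t : E)‖ * ‖(l : C)‖ := by simp
    rw [← h5, h4, h6]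
    exact mul_le_of_le_one_left (norm_nonneg _) (int_norm κ t)
  · have h3 : (l : 𝓞 E) * u ^ e ∈ span {π ^ e} := by
      have h4 : (l : 𝓞 E) * u ^ e ∈ span {(l : 𝓞 E)} * J ^ e :=
        Ideal.mul_mem_mul (Ideal.mem_span_singleton_self _) (Ideal.pow_mem_pow hu e)
      have h5 : span {(l : 𝓞 E)} * J ^ e ≤ span {π ^ e} := by
        rw [← Ideal.span_singleton_pow, hJ, hQ, mul_pow]
        calc kerP κ ^ e * Q * J ^ e = kerP κ ^ e * J ^ e * Q := by ring
          _ ≤ kerP κ ^ e * J ^ e := Ideal.mul_le_left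
      exact h5 h4
    obtain ⟨w, hw⟩ := Ideal.mem_span_singleton'.1 h3
    have h4 : ‖κ (((l : 𝓞 E) * u ^ e : 𝓞 E) : E)‖ = ‖κ ((w * π ^ e : 𝓞 E) : E)‖ := by rw [hw]
    have h5 : ‖κ (((l : 𝓞 E) * u ^ e : 𝓞 E) : E)‖ = ‖(l : C)‖ := by simp [kerP_not κ huP]
    have h6 : ‖κ ((w * π ^ e : 𝓞 E) : E)‖ = ‖κ (w : E)‖ * ‖κ (π : E)‖ ^ e := by simp
    rw [← h5, h4, h6]
    exact mul_le_of_le_one_left (by positivity) (int_norm κ w)

/-- **Exactly `e_P f_P` embeddings belong to `P`.** -/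
theorem card_emb [CharZero C] [IsAlgClosed C] (l : ℕ) [hl : Fact l.Prime] (hl1 : ‖(l : C)‖ < 1)
    (P : Ideal (𝓞 E)) (hP : P ∈ overP E l) :
    {κ : E →+* C | kerP κ = P}.ncard = eP E l P * fP E l P := by
  classical
  obtain ⟨π, J, hπ0, hJ, hJ2, hπQ⟩ := exists_pi l P hP
  have hlC : 0 < ‖(l : C)‖ := norm_pos_iff.2 (by exact_mod_cast hl.out.ne_zero)
  -- the norm of `π`
  have hJ0 : J ≠ ⊥ := by
    rintro rfl
    rw [Ideal.mul_bot, span_singleton_eq_bot] at hJ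
    exact hπ0 hJ
  have hN : (Algebra.norm ℤ π).natAbs = l ^ fP E l P * absNorm J := by
    rw [← Ideal.absNorm_span_singleton, hJ, map_mul, over_norm E l hP]
  have hNC : ‖((Algebra.norm ℤ π : ℤ) : C)‖ = ‖(l : C)‖ ^ fP E l P := by
    have h1 : ‖((Algebra.norm ℤ π : ℤ) : C)‖ = ‖(((Algebra.norm ℤ π).natAbs : ℕ) : C)‖ := by
      rcases Int.natAbs_eq (Algebra.norm ℤ π) with h | h
      · conv_lhs => rw [h]
        rw [Int.cast_natCast]
      · conv_lhs => rw [h]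
        rw [Int.cast_neg, norm_neg, Int.cast_natCast]
    rw [h1, hN, Nat.cast_mul, Nat.cast_pow, norm_mul, norm_pow,
      norm_nat_one l hl.out hl1 _ (norm_coprime l J hJ0 hJ2), mul_one]
  have hprod : ∏ κ : E →ₐ[ℚ] C, ‖κ (π : E)‖ = ‖(l : C)‖ ^ fP E l P := by
    rw [← hNC, ← norm_prod, ← Algebra.norm_eq_prod_embeddings ℚ C (π : E),
      ← Algebra.coe_norm_int π]
    simp
  have hprod2 : ∏ κ : E →ₐ[ℚ] C, ‖κ (π : E)‖ ^ eP E l P =
      ‖(l : C)‖ ^ (Finset.univ.filter (fun κ : E →ₐ[ℚ] C => kerP (κ : E →+* C) = P)).card := by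
    rw [← Finset.prod_const, Finset.prod_filter]
    refine Finset.prod_congr rfl fun κ _ => ?_
    split_ifs with h
    · have h1 : span {π} = kerP (κ : E →+* C) * J := by rw [h]; exact hJ
      have h2 : ¬ J ≤ kerP (κ : E →+* C) := by rw [h]; exact hJ2 P hP
      have h3 := pi_value (κ : E →+* C) l hl1 π J h1 h2
      rw [h] at h3
      exact h3
    · have h1 := hπQ _ (kerP_over (κ : E →+* C) l hl1) h
      have h2 := kerP_not (κ : E →+* C) h1
      have h3 : ‖κ (π : E)‖ = 1 := h2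
      rw [h3, one_pow]
  rw [Finset.prod_pow, hprod, ← pow_mul] at hprod2
  have hinj := (pow_right_injective₀ hlC hl1.ne) hprod2
  rw [mul_comm, hinj]
  rw [← Set.ncard_coe_finset]
  refine Set.ncard_congr (fun (κ : E →+* C) _ => (RingHom.equivRatAlgHom E C κ)) ?_ ?_ ?_
  · intro κ hκ
    simp only [Finset.coe_filter, Finset.mem_univ, true_and, Set.mem_ofPred_eq] at hκ ⊢
    have : ((RingHom.equivRatAlgHom E C κ : E →ₐ[ℚ] C) : E →+* C) = κ := by
      ext x; rfl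
    rw [this]
    exact hκ
  · intro a b _ _ h
    exact (RingHom.equivRatAlgHom E C).injective h
  · intro κ hκ
    simp only [Finset.coe_filter, Finset.mem_univ, true_and, Set.mem_ofPred_eq] at hκ
    refine ⟨(κ : E →+* C), hκ, ?_⟩
    ext x; rfl

/-- the number of the ramified embeddings -/
theorem card_ramified [CharZero C] [IsAlgClosed C] (l : ℕ) [hl : Fact l.Prime]
    (hl1 : ‖(l : C)‖ < 1) :
    {κ : E →+* C | 2 ≤ eP E l (kerP κ)}.ncard ≤ 2 * padicValNat l (discr E).natAbs := by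
  classical
  refine le_trans ?_ (ramified_le E l)
  have hsub : {κ : E →+* C | 2 ≤ eP E l (kerP κ)} ⊆
      ⋃ P ∈ (overP E l).filter (fun P => 2 ≤ eP E l P), {κ : E →+* C | kerP κ = P} := by
    intro κ hκ
    simp only [Set.mem_iUnion, Finset.mem_filter, exists_prop]
    exact ⟨kerP κ, ⟨kerP_over κ l hl1, hκ⟩, rfl⟩
  have hfin : (⋃ P ∈ (overP E l).filter (fun P => 2 ≤ eP E l P),
      {κ : E →+* C | kerP κ = P}).Finite := Set.toFinite _
  refine (Set.ncard_le_ncard hsub hfin).trans ?_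
  refine (Finset.set_ncard_biUnion_le _ _).trans (Finset.sum_le_sum fun P hP => ?_)
  rw [card_emb l hl1 P (Finset.mem_filter.1 hP).1]

end

end Pool.Agent.H84.PT2
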