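import Pool.Agent.H84.PT2.Loc

/-!
# Integral coordinates and the discriminant at `l`

`C` algebraically closed of characteristic zero, ultrametric, `‖l‖ < 1`. A family `θ` of integers of `E`, indexed by the
embeddings, with `det (κ θ_i)^2 = discr E`, such that every `x` in `E` with `‖κ x‖ ≤ 1` for all `κ` is a
combination of the `θ_i` with rational coefficients of absolute value at most one in `C`.
-/

set_option autoImplicit false
set_option linter.unusedSectionVars false

open NumberField Ideal Module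

namespace Pool.Agent.H84.PT2

variable {E : Type*} [Field E] [NumberField E] {C : Type*} [NormedField C] [IsUltrametricDist C]
  [CharZero C] [IsAlgClosed C]

/-- every prime over `l` belongs to an embedding -/
theorem exists_emb (l : ℕ) [hl : Fact l.Prime] (hl1 : ‖(l : C)‖ < 1) (P : Ideal (𝓞 E))
    (hP : P ∈ overP E l) : ∃ κ : E →+* C, kerP κ = P := by
  have h1 := card_emb (C := C) l hl1 P hP
  have h2 := (mem_over E l).1 hP
  have hPp := h2.1
  have hPl := h2.2
  have he : eP E l P ≠ 0 := IsDedekindDomain.ramificationIdx'_ne_zero_of_liesOver P (span_ne l)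
  have hf : fP E l P ≠ 0 := by
    intro hf
    have h3 := over_norm E l hP
    rw [hf, pow_zero] at h3
    exact hPp.ne_top (Ideal.absNorm_eq_one_iff.1 h3)
  have h3 : {κ : E →+* C | kerP κ = P}.ncard ≠ 0 := by
    rw [h1]
    exact Nat.mul_ne_zero he hf
  obtain ⟨κ, hκ⟩ := Set.nonempty_of_ncard_ne_zero h3
  exact ⟨κ, hκ⟩

/-- `l`-integral elements are integers over a denominator prime to `l` -/
theorem loc_int (l : ℕ) [hl : Fact l.Prime] (hl1 : ‖(l : C)‖ < 1) (x : E)
    (hx : ∀ κ : E →+* C, ‖κ x‖ ≤ 1) : ∃ (m : ℕ) (y : 𝓞 E), ¬ l ∣ m ∧ (m : E) * x = y := by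
  classical
  let J : Ideal (𝓞 E) :=
    { carrier := {b | ∃ y : 𝓞 E, (b : E) * x = y}
      zero_mem' := ⟨0, by simp⟩
      add_mem' := by
        rintro a b ⟨y, hy⟩ ⟨z, hz⟩
        refine ⟨y + z, ?_⟩
        have h1 : ((a + b : 𝓞 E) : E) = (a : E) + (b : E) := rfl
        have h2 : ((y + z : 𝓞 E) : E) = (y : E) + (z : E) := rfl
        rw [h1, h2, add_mul, hy, hz]
      smul_mem' := by
        rintro c a ⟨y, hy⟩
        refine ⟨c * y, ?_⟩
        have h1 : ((c • a : 𝓞 E) : E) = (c : E) * (a : E) := rfl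
        have h2 : ((c * y : 𝓞 E) : E) = (c : E) * (y : E) := rfl
        rw [h1, h2, mul_assoc, hy] }
  have hJmem : ∀ b : 𝓞 E, b ∈ J ↔ ∃ y : 𝓞 E, (b : E) * x = y := fun b => Iff.rfl
  have hJ : ∀ Q ∈ overP E l, ¬ J ≤ Q := by
    intro Q hQ hle
    obtain ⟨κ, rfl⟩ := exists_emb (C := C) l hl1 Q hQ
    obtain ⟨π, s, hπ0, hπ, hsP, hs⟩ := exists_unif κ l hl1
    by_cases h0 : x = 0
    · have h1 : (1 : 𝓞 E) ∈ J := (hJmem 1).2 ⟨0, by simp [h0]⟩
      exact (kerP_prime κ).ne_top ((Ideal.eq_top_iff_one _).2 (hle h1))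
    obtain ⟨z, A, B, hB, hz, hAB⟩ := loc_aux κ π s hπ0 (hπ κ rfl).1 hsP hs x h0
    have hπpos : 0 < ‖κ (π : E)‖ := by
      rw [norm_pos_iff, Ne, map_eq_zero]
      exact_mod_cast hπ0
    have hz0 : 0 ≤ z := by
      by_contra h
      have h1 : z < 0 := by omega
      have h2 := one_lt_zpow_of_neg₀ hπpos (hπ κ rfl).1 h1
      have h3 := hx κ
      rw [hz κ rfl] at h3
      linarith
    apply hB
    apply hle
    rw [hJmem]
    exact ⟨A, by rw [mul_comm]; exact hAB hz0⟩
  have hJ0 : J ≠ ⊥ := by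
    obtain ⟨a, b, hb, hab⟩ := IsFractionRing.div_surjective (A := 𝓞 E) x
    have hb0 : b ≠ 0 := nonZeroDivisors.ne_zero hb
    intro h
    have h1 : b ∈ J := by
      rw [hJmem]
      refine ⟨a, ?_⟩
      have hbE : (b : E) ≠ 0 := by exact_mod_cast hb0
      rw [← hab]
      exact mul_div_cancel₀ _ hbE
    rw [h] at h1
    exact hb0 h1
  have hn := norm_coprime l J hJ0 hJ
  have hmem : ((absNorm J : ℕ) : 𝓞 E) ∈ J := Ideal.absNorm_mem J
  obtain ⟨y, hy⟩ := (hJmem _).1 hmem
  refine ⟨absNorm J, y, hn, ?_⟩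
  rw [← hy]
  simp

/-- the integral basis, indexed by the embeddings -/
theorem exists_theta [DecidableEq (E →+* C)] (l : ℕ) [hl : Fact l.Prime]
    (hl1 : ‖(l : C)‖ < 1) :
    ∃ θ : (E →+* C) → 𝓞 E,
      (Matrix.of fun (κ i : E →+* C) => κ (θ i : E)).det ^ 2 = ((discr E : ℤ) : C) ∧
      ∀ x : E, (∀ κ : E →+* C, ‖κ x‖ ≤ 1) → ∃ c : (E →+* C) → C,
        (∀ i, ‖c i‖ ≤ 1) ∧ ∀ κ : E →+* C, κ x = ∑ i, c i * κ (θ i : E) := by
  classical
  have hcard : Fintype.card (E →+* C) = Fintype.card (Free.ChooseBasisIndex ℤ (𝓞 E)) := by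
    rw [← finrank_eq_card_basis (integralBasis E), ← Embeddings.card E C]
  let e : (E →+* C) ≃ Free.ChooseBasisIndex ℤ (𝓞 E) := Fintype.equivOfCardEq hcard
  refine ⟨fun i => RingOfIntegers.basis E (e i), ?_, ?_⟩
  · have h1 := Algebra.discr_eq_det_embeddingsMatrixReindex_pow_two ℚ C
      (fun i : E →+* C => integralBasis E (e i)) (RingHom.equivRatAlgHom E C)
    have h2 : Algebra.discr ℚ (fun i : E →+* C => integralBasis E (e i)) =
        Algebra.discr ℚ (integralBasis E) := by
      rw [← Algebra.discr_reindex ℚ (integralBasis E) e.symm]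
      rfl
    have h3 : (Matrix.of fun (κ i : E →+* C) => κ ((RingOfIntegers.basis E (e i) : 𝓞 E) : E)) =
        (Algebra.embeddingsMatrixReindex ℚ C (fun i : E →+* C => integralBasis E (e i))
          (RingHom.equivRatAlgHom E C)).transpose := by
      ext κ i
      simp [Algebra.embeddingsMatrixReindex, integralBasis_apply]
    rw [h3, Matrix.det_transpose, ← h1, h2, ← coe_discr]
    simp
  · intro x hx
    obtain ⟨m, y, hm, hmy⟩ := loc_int (C := C) l hl1 x hx
    have hm0 : (m : C) ≠ 0 := by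
      intro h
      have := norm_nat_one l hl.out hl1 m hm
      rw [h, norm_zero] at this
      exact zero_ne_one this
    refine ⟨fun i => ((RingOfIntegers.basis E).repr y (e i) : C) / (m : C), fun i => ?_,
      fun κ => ?_⟩
    · rw [norm_div, norm_nat_one l hl.out hl1 m hm, div_one]
      exact IsUltrametricDist.norm_intCast_le_one C _
    · have h1 : y = ∑ j, (RingOfIntegers.basis E).repr y j • RingOfIntegers.basis E j :=
        ((RingOfIntegers.basis E).sum_repr y).symm
      have h2 : κ (y : E) = ∑ j, ((RingOfIntegers.basis E).repr y j : C) *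
          κ ((RingOfIntegers.basis E j : 𝓞 E) : E) := by
        have h4 : κ (y : E) = (κ.comp (algebraMap (𝓞 E) E)) y := rfl
        rw [h4]
        conv_lhs => rw [h1]
        rw [map_sum]
        refine Finset.sum_congr rfl fun j _ => ?_
        rw [map_zsmul, zsmul_eq_mul]
        rfl
      have h3 : (m : C) * κ x = κ (y : E) := by
        rw [← hmy, map_mul, map_natCast]
      rw [← mul_right_inj' hm0, h3, h2, Finset.mul_sum, ← Equiv.sum_comp e]
      refine Finset.sum_congr rfl fun i _ => ?_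
      field_simp

end Pool.Agent.H84.PT2
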