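import Mathlib

/-!
# Frobenius at an unramified place

In an ultrametric normed field, `l` a prime number, `0 < ‖l‖ < 1`: if `x`, `u` are integral, `x^(l^f) = x`,
`u^(l^f) = u` modulo `l` and `u = x^l` modulo the maximal ideal, then `u = x^l` modulo `l`.
-/

set_option autoImplicit false

namespace Pool.Agent.H84.PT2

variable {C : Type*} [NormedField C] [IsUltrametricDist C]

theorem um_sub (a b c : C) : ‖a - c‖ ≤ max ‖a - b‖ ‖b - c‖ := by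
  have := IsUltrametricDist.norm_add_le_max (a - b) (b - c)
  rwa [sub_add_sub_cancel] at this

theorem um_sub_le (a b : C) : ‖a - b‖ ≤ max ‖a‖ ‖b‖ := by
  have := um_sub a 0 b
  simpa using this

theorem pow_sub_le (a b : C) (ha : ‖a‖ ≤ 1) (hb : ‖b‖ ≤ 1) (n : ℕ) : ‖a ^ n - b ^ n‖ ≤ ‖a - b‖ := by
  induction n with
  | zero => simp
  | succ n ih =>
    have e : a ^ (n + 1) - b ^ (n + 1) = (a ^ n - b ^ n) * a + b ^ n * (a - b) := by ring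
    rw [e]
    refine (IsUltrametricDist.norm_add_le_max _ _).trans (max_le ?_ ?_)
    · rw [norm_mul]
      calc ‖a ^ n - b ^ n‖ * ‖a‖ ≤ ‖a - b‖ * 1 :=
            mul_le_mul ih ha (norm_nonneg _) (norm_nonneg _)
        _ = ‖a - b‖ := mul_one _
    · rw [norm_mul, norm_pow]
      calc ‖b‖ ^ n * ‖a - b‖ ≤ 1 * ‖a - b‖ :=
            mul_le_mul_of_nonneg_right (pow_le_one₀ (norm_nonneg _) hb) (norm_nonneg _)
        _ = ‖a - b‖ := one_mul _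

theorem pow_prime_close (l : ℕ) (hl : l.Prime) (a b : C) (hb : ‖b‖ ≤ 1) (hab : ‖a - b‖ ≤ 1) :
    ‖a ^ l - b ^ l‖ ≤ max ‖(l : C)‖ (‖a - b‖ ^ l) := by
  obtain ⟨d, hd⟩ : ∃ d, d = a - b := ⟨_, rfl⟩
  have ha' : a = d + b := by rw [hd]; ring
  rw [← hd] at hab ⊢
  have e : a ^ l - b ^ l = ∑ j ∈ Finset.range l, d ^ (j + 1) * b ^ (l - (j + 1)) * (l.choose (j + 1) : C) := by
    rw [ha', add_pow, Finset.sum_range_succ']
    simp
  rw [e]
  refine IsUltrametricDist.norm_sum_le_of_forall_le_of_nonneg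
    (le_max_of_le_left (norm_nonneg _)) fun j hj => ?_
  have hj' := Finset.mem_range.1 hj
  have h1 : ‖b ^ (l - (j + 1))‖ ≤ 1 := by
    rw [norm_pow]; exact pow_le_one₀ (norm_nonneg _) hb
  by_cases hjl : j + 1 = l
  · refine le_max_of_le_right ?_
    rw [hjl, Nat.choose_self, Nat.cast_one, mul_one, norm_mul, norm_pow]
    have : ‖b ^ (l - l)‖ = 1 := by simp
    rw [this, mul_one]
  · refine le_max_of_le_left ?_
    obtain ⟨c, hc⟩ := hl.dvd_choose_self (Nat.succ_ne_zero j) (lt_of_le_of_ne hj' hjl)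
    rw [hc, Nat.cast_mul, norm_mul, norm_mul, norm_mul, norm_pow]
    have h2 : ‖(c : C)‖ ≤ 1 := IsUltrametricDist.norm_natCast_le_one C c
    have h3 : ‖d‖ ^ (j + 1) ≤ 1 := pow_le_one₀ (norm_nonneg _) hab
    calc ‖d‖ ^ (j + 1) * ‖b ^ (l - (j + 1))‖ * (‖(l : C)‖ * ‖(c : C)‖)
        ≤ 1 * 1 * (‖(l : C)‖ * 1) := by gcongr
      _ = ‖(l : C)‖ := by ring

theorem pow_pow_close (l : ℕ) (hl : l.Prime) (hl1 : ‖(l : C)‖ ≤ 1) (a b : C) (ha : ‖a‖ ≤ 1)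
    (hb : ‖b‖ ≤ 1) (m : ℕ) :
    ‖a ^ (l ^ m) - b ^ (l ^ m)‖ ≤ max ‖(l : C)‖ (‖a - b‖ ^ (l ^ m)) := by
  have hab : ‖a - b‖ ≤ 1 := by
    have := um_sub_le a b
    exact this.trans (max_le ha hb)
  induction m with
  | zero => simp
  | succ m ih =>
    have hb' : ‖b ^ (l ^ m)‖ ≤ 1 := by rw [norm_pow]; exact pow_le_one₀ (norm_nonneg _) hb
    have ha' : ‖a ^ (l ^ m)‖ ≤ 1 := by rw [norm_pow]; exact pow_le_one₀ (norm_nonneg _) ha
    have hab' : ‖a ^ (l ^ m) - b ^ (l ^ m)‖ ≤ 1 :=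
      (um_sub_le _ _).trans (max_le ha' hb')
    have h := pow_prime_close l hl (a ^ (l ^ m)) (b ^ (l ^ m)) hb' hab'
    rw [← pow_mul, ← pow_mul, ← pow_succ] at h
    refine h.trans (max_le (le_max_left _ _) ?_)
    rcases le_total ‖(l : C)‖ (‖a - b‖ ^ (l ^ m)) with h1 | h1
    · rw [max_eq_right h1] at ih
      refine le_max_of_le_right ?_
      calc ‖a ^ (l ^ m) - b ^ (l ^ m)‖ ^ l ≤ (‖a - b‖ ^ (l ^ m)) ^ l :=
            pow_le_pow_left₀ (norm_nonneg _) ih l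
        _ = ‖a - b‖ ^ (l ^ (m + 1)) := by rw [← pow_mul, ← pow_succ]
    · rw [max_eq_left h1] at ih
      refine le_max_of_le_left ?_
      calc ‖a ^ (l ^ m) - b ^ (l ^ m)‖ ^ l ≤ ‖(l : C)‖ ^ l :=
            pow_le_pow_left₀ (norm_nonneg _) ih l
        _ ≤ ‖(l : C)‖ ^ 1 := pow_le_pow_of_le_one (norm_nonneg _) hl1 hl.one_lt.le
        _ = ‖(l : C)‖ := pow_one _

theorem iter_close (l f : ℕ) (x : C) (hx : ‖x‖ ≤ 1) (r : ℝ) (hxf : ‖x ^ (l ^ f) - x‖ ≤ r) (k : ℕ) :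
    ‖x ^ (l ^ (f * k)) - x‖ ≤ r := by
  have hr : 0 ≤ r := (norm_nonneg _).trans hxf
  induction k with
  | zero => simpa using hr
  | succ k ih =>
    have hx' : ‖x ^ (l ^ (f * k))‖ ≤ 1 := by rw [norm_pow]; exact pow_le_one₀ (norm_nonneg _) hx
    have h1 := pow_sub_le (x ^ (l ^ (f * k))) x hx' hx (l ^ f)
    rw [← pow_mul, ← pow_add] at h1
    have e : f * (k + 1) = f * k + f := by ring
    rw [e]
    exact (um_sub _ (x ^ (l ^ f)) _).trans (max_le (h1.trans ih) hxf)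

/-- Frobenius modulo `l` at an unramified place -/
theorem frob_close (l : ℕ) (hl : l.Prime) (hl0 : (l : C) ≠ 0) (hl1 : ‖(l : C)‖ ≤ 1) (f : ℕ)
    (hf : 1 ≤ f) (x u : C) (hx : ‖x‖ ≤ 1) (hu : ‖u‖ ≤ 1)
    (hxf : ‖x ^ (l ^ f) - x‖ ≤ ‖(l : C)‖) (huf : ‖u ^ (l ^ f) - u‖ ≤ ‖(l : C)‖)
    (h : ‖u - x ^ l‖ < 1) : ‖u - x ^ l‖ ≤ ‖(l : C)‖ := by
  have hpos : 0 < ‖(l : C)‖ := norm_pos_iff.2 hl0
  have hxl : ‖x ^ l‖ ≤ 1 := by rw [norm_pow]; exact pow_le_one₀ (norm_nonneg _) hx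
  obtain ⟨k, hk⟩ := exists_pow_lt_of_lt_one hpos h
  have hkk : k ≤ l ^ (f * k) :=
    (Nat.lt_pow_self hl.one_lt).le.trans
      (Nat.pow_le_pow_right hl.pos (Nat.le_mul_of_pos_left k hf))
  have h1 : ‖u ^ (l ^ (f * k)) - (x ^ l) ^ (l ^ (f * k))‖ ≤ ‖(l : C)‖ := by
    refine (pow_pow_close l hl hl1 u (x ^ l) hu hxl (f * k)).trans (max_le le_rfl ?_)
    exact (pow_le_pow_of_le_one (norm_nonneg _) h.le hkk).trans hk.le
  have h2 := iter_close l f u hu _ huf k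
  have hxf' : ‖(x ^ l) ^ (l ^ f) - x ^ l‖ ≤ ‖(l : C)‖ := by
    have hx' : ‖x ^ (l ^ f)‖ ≤ 1 := by rw [norm_pow]; exact pow_le_one₀ (norm_nonneg _) hx
    have := pow_sub_le (x ^ (l ^ f)) x hx' hx l
    rw [← pow_mul, mul_comm, pow_mul] at this
    exact this.trans hxf
  have h3 := iter_close l f (x ^ l) hxl _ hxf' k
  rw [norm_sub_rev] at h2
  exact (um_sub _ (u ^ (l ^ (f * k))) _).trans
    (max_le h2 ((um_sub _ ((x ^ l) ^ (l ^ (f * k))) _).trans (max_le h1 h3)))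

end Pool.Agent.H84.PT2
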