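import Pool.Agent.H84.PT2.Mdet

/-!
# The Gram matrix of points in few classes

`A` a `D × D` matrix with entries of value at most one, the rows in `s` classes, rows in one class congruent modulo the
maximal ideal, `AᵗA` with entries in a subfield `F` where `v a < 1 → v a ≤ q`: then `v (det A)^2 ≤ q^(D-s)`.
-/

set_option autoImplicit false

namespace Pool.Agent.H84.PT2

variable {E : Type*} [Field E] (v : AbsoluteValue E ℝ) (hv : IsNonarchimedean v)

include hv in
theorem sum_lt' {ι : Type*} (s : Finset ι) (f : ι → E) (h : ∀ i ∈ s, v (f i) < 1) :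
    v (∑ i ∈ s, f i) < 1 := by
  classical
  induction s using Finset.induction_on with
  | empty => simp
  | insert a s ha ih =>
    rw [Finset.sum_insert ha]
    exact (hv _ _).trans_lt (max_lt (h a (Finset.mem_insert_self a s))
      (ih fun i hi => h i (Finset.mem_insert_of_mem hi)))

theorem prod_le' {ι : Type*} (s : Finset ι) (f : ι → E) (h : ∀ i ∈ s, v (f i) ≤ 1) :
    v (∏ i ∈ s, f i) ≤ 1 := by
  rw [map_prod]
  exact Finset.prod_le_one (fun i _ => v.nonneg _) h

include hv in
theorem prod_close {ι : Type*} (s : Finset ι) (f g : ι → E) (hf : ∀ i ∈ s, v (f i) ≤ 1)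
    (hg : ∀ i ∈ s, v (g i) ≤ 1) (h : ∀ i ∈ s, v (f i - g i) < 1) :
    v (∏ i ∈ s, f i - ∏ i ∈ s, g i) < 1 := by
  classical
  induction s using Finset.induction_on with
  | empty => simp
  | insert a s ha ih =>
    rw [Finset.prod_insert ha, Finset.prod_insert ha]
    have e : f a * ∏ i ∈ s, f i - g a * ∏ i ∈ s, g i =
        (f a - g a) * ∏ i ∈ s, f i + g a * (∏ i ∈ s, f i - ∏ i ∈ s, g i) := by ring
    rw [e]
    refine (hv _ _).trans_lt (max_lt ?_ ?_)
    · rw [map_mul]
      exact (mul_le_of_le_one_right (v.nonneg _)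
        (prod_le' v s f fun i hi => hf i (Finset.mem_insert_of_mem hi))).trans_lt
        (h a (Finset.mem_insert_self a s))
    · rw [map_mul]
      exact (mul_le_of_le_one_left (v.nonneg _) (hg a (Finset.mem_insert_self a s))).trans_lt
        (ih (fun i hi => hf i (Finset.mem_insert_of_mem hi))
          (fun i hi => hg i (Finset.mem_insert_of_mem hi))
          (fun i hi => h i (Finset.mem_insert_of_mem hi)))

include hv in
theorem det_close {n : Type*} [Fintype n] [DecidableEq n] (X Y : Matrix n n E)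
    (hX : ∀ i j, v (X i j) ≤ 1) (hY : ∀ i j, v (Y i j) ≤ 1) (h : ∀ i j, v (X i j - Y i j) < 1) :
    v (X.det - Y.det) < 1 := by
  rw [Matrix.det_apply', Matrix.det_apply', ← Finset.sum_sub_distrib]
  refine sum_lt' v hv _ _ fun σ _ => ?_
  have h1 : v ((Equiv.Perm.sign σ : ℤ) : E) = 1 := by
    rcases Int.units_eq_one_or (Equiv.Perm.sign σ) with h | h <;> simp [h]
  rw [← mul_sub, map_mul, h1, one_mul]
  exact prod_close v hv _ _ _ (fun i _ => hX _ _) (fun i _ => hY _ _) (fun i _ => h _ _)

theorem det_low {K : Type*} [Field K] {s : ℕ} (P : Matrix (Fin (s + 1)) (Fin s) K)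
    (Q : Matrix (Fin s) (Fin (s + 1)) K) : (P * Q).det = 0 := by
  by_contra h
  have h1 : IsUnit (P * Q) := (Matrix.isUnit_iff_isUnit_det _).2 (isUnit_iff_ne_zero.2 h)
  have h2 := Matrix.rank_of_isUnit (P * Q) h1
  have h3 := Matrix.rank_mul_le_left P Q
  have h4 := Matrix.rank_le_width P
  rw [Fintype.card_fin] at h2
  omega

include hv in
theorem gram_minor {D s : ℕ} (A : Matrix (Fin D) (Fin D) E) (hA : ∀ i j, v (A i j) ≤ 1)
    (cls : Fin D → Fin s) (hcls : ∀ j j', cls j = cls j' → ∀ e, v (A j e - A j' e) < 1)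
    (r c : Fin (s + 1) → Fin D) : v ((A.transpose * A).submatrix r c).det < 1 := by
  classical
  have hD : Nonempty (Fin D) := ⟨r 0⟩
  have hrep : ∀ a : Fin s, ∃ j : Fin D, (∃ j', cls j' = a) → cls j = a := by
    intro a
    by_cases h : ∃ j', cls j' = a
    · obtain ⟨j', hj'⟩ := h
      exact ⟨j', fun _ => hj'⟩
    · exact ⟨Classical.arbitrary _, fun h' => absurd h' h⟩
  choose rep hrep using hrep
  have hrep' : ∀ j, cls (rep (cls j)) = cls j := fun j => hrep (cls j) ⟨j, rfl⟩
  let A0 : Matrix (Fin D) (Fin D) E := Matrix.of fun j e => A (rep (cls j)) e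
  have hA0 : ∀ i j, v (A0 i j) ≤ 1 := fun i j => hA _ _
  have hdiff : ∀ j e, v (A j e - A0 j e) < 1 := fun j e => hcls _ _ (hrep' j).symm e
  have hX : ∀ (M : Matrix (Fin D) (Fin D) E), (∀ i j, v (M i j) ≤ 1) →
      ∀ i j, v ((M.transpose * M).submatrix r c i j) ≤ 1 := by
    intro M hM i j
    rw [Matrix.submatrix_apply, Matrix.mul_apply]
    refine sum_le' v hv _ _ _ zero_le_one fun k _ => ?_
    rw [map_mul]
    exact mul_le_one₀ (hM _ _) (v.nonneg _) (hM _ _)
  have hXY : ∀ i j, v ((A.transpose * A).submatrix r c i j -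
      (A0.transpose * A0).submatrix r c i j) < 1 := by
    intro i j
    rw [Matrix.submatrix_apply, Matrix.submatrix_apply, Matrix.mul_apply, Matrix.mul_apply,
      ← Finset.sum_sub_distrib]
    refine sum_lt' v hv _ _ fun k _ => ?_
    have e : A.transpose (r i) k * A k (c j) - A0.transpose (r i) k * A0 k (c j) =
        (A k (r i) - A0 k (r i)) * A k (c j) + A0 k (r i) * (A k (c j) - A0 k (c j)) := by
      rw [Matrix.transpose_apply, Matrix.transpose_apply]
      ring
    rw [e]
    refine (hv _ _).trans_lt (max_lt ?_ ?_)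
    · rw [map_mul]
      exact (mul_le_of_le_one_right (v.nonneg _) (hA _ _)).trans_lt (hdiff _ _)
    · rw [map_mul]
      exact (mul_le_of_le_one_left (v.nonneg _) (hA0 _ _)).trans_lt (hdiff _ _)
  have hclose := det_close v hv _ _ (hX A hA) (hX A0 hA0) hXY
  have hzero : ((A0.transpose * A0).submatrix r c).det = 0 := by
    let P : Matrix (Fin (s + 1)) (Fin s) E := Matrix.of fun i a => A (rep a) (r i)
    let Q : Matrix (Fin s) (Fin (s + 1)) E := Matrix.of fun a k =>
      ((Finset.univ.filter fun j : Fin D => cls j = a).card : E) * A (rep a) (c k)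
    have hPQ : (A0.transpose * A0).submatrix r c = P * Q := by
      ext i k
      rw [Matrix.submatrix_apply, Matrix.mul_apply, Matrix.mul_apply]
      have h1 : ∀ j : Fin D, A0.transpose (r i) j * A0 j (c k) =
          A (rep (cls j)) (r i) * A (rep (cls j)) (c k) := fun j => rfl
      rw [Finset.sum_congr rfl fun j _ => h1 j]
      rw [← Finset.sum_fiberwise (s := Finset.univ) (g := cls)]
      refine Finset.sum_congr rfl fun a _ => ?_
      have h2 : ∀ j ∈ Finset.univ.filter (fun j : Fin D => cls j = a),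
          A (rep (cls j)) (r i) * A (rep (cls j)) (c k) = A (rep a) (r i) * A (rep a) (c k) := by
        intro j hj
        rw [(Finset.mem_filter.1 hj).2]
      rw [Finset.sum_congr rfl h2, Finset.sum_const, nsmul_eq_mul]
      simp only [P, Q, Matrix.of_apply]
      ring
    rw [hPQ]
    exact det_low P Q
  rw [hzero, sub_zero] at hclose
  exact hclose

include hv in
/-- **Gram determinant** -/
theorem gram_det (F : Subfield E) (q : ℝ) (hq0 : 0 ≤ q) (hq1 : q ≤ 1)
    (hF : ∀ a ∈ F, v a < 1 → v a ≤ q) {D s : ℕ} (A : Matrix (Fin D) (Fin D) E)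
    (hA : ∀ i j, v (A i j) ≤ 1) (hAF : ∀ i j, (A.transpose * A) i j ∈ F)
    (cls : Fin D → Fin s) (hcls : ∀ j j', cls j = cls j' → ∀ e, v (A j e - A j' e) < 1) :
    v A.det ^ 2 ≤ q ^ (D - s) := by
  have h1 : ∀ i j, v ((A.transpose * A) i j) ≤ 1 := by
    intro i j
    rw [Matrix.mul_apply]
    refine sum_le' v hv _ _ _ zero_le_one fun k _ => ?_
    rw [map_mul]
    exact mul_le_one₀ (hA _ _) (v.nonneg _) (hA _ _)
  have h2 := minor_det v hv F q hq0 hq1 hF D s (A.transpose * A) hAF h1
    (fun r c => gram_minor v hv A hA cls hcls r c)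
  rw [Matrix.det_mul, Matrix.det_transpose, map_mul, ← sq] at h2
  exact h2

end Pool.Agent.H84.PT2
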