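import Mathlib

/-!
# Kummer descent at one prime, group theoretic form

`G` acts on the abelian group `B` by automorphisms, `S` a subgroup all of whose elements satisfy `(s x_i)^l = x_i^l`, `N`
a subgroup such that `S ∩ N` fixes `x`. `ω` has order `l` and every `b` with `b^l = 1` is a power of `ω`.
`ku_a`: `s₀ ζ = ζ ω` for some `s₀ ∈ S` and `S ⊆ s₀^ℤ N`; `ku_b`: `s₀ ω = ω^u`, `u ≠ 1` modulo `l`, commutators of `S` in `N`.
Then a torsion translate `z x` is fixed by `S`.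
-/

set_option autoImplicit false

namespace Pool.Agent.H84.PT2

variable {G B ι : Type*} [Group G] [CommGroup B] [MulDistribMulAction G B]

theorem ku_a (S N : Subgroup G) (l : ℕ) (ω ζ : B) (hω : ∀ b : B, b ^ l = 1 → ∃ m : ℤ, b = ω ^ m)
    (x : ι → B) (hx : ∀ s ∈ S, ∀ i, (s • x i) ^ l = x i ^ l)
    (hN : ∀ s ∈ S, s ∈ N → ∀ i, s • x i = x i) (hζ : ∀ s ∈ N, s • ζ = ζ)
    (s₀ : G) (hs₀ : s₀ ∈ S) (h0 : s₀ • ζ = ζ * ω) (hgen : ∀ s ∈ S, ∃ k : ℤ, s₀ ^ k * s ∈ N) :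
    ∃ a : ι → ℤ, ∀ s ∈ S, ∀ i, s • (ζ ^ a i * x i) = ζ ^ a i * x i := by
  have h1 : ∀ i, ∃ m : ℤ, s₀ • x i / x i = ω ^ m := by
    intro i
    apply hω
    rw [div_pow, hx s₀ hs₀ i, div_self']
  choose m hm using h1
  have h2 : ∀ i, s₀ • x i = ω ^ m i * x i := fun i => by rw [← hm i, div_mul_cancel]
  have h3 : ∀ i, s₀ • (ζ ^ (-m i) * x i) = ζ ^ (-m i) * x i := by
    intro i
    rw [smul_mul', smul_zpow', h0, h2, mul_zpow, mul_assoc, ← mul_assoc (ω ^ (-m i)), ← zpow_add,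
      neg_add_cancel, zpow_zero, one_mul]
  refine ⟨fun i => -m i, fun s hs i => ?_⟩
  obtain ⟨k, hk⟩ := hgen s hs
  have h4 : ∀ j : ℤ, s₀ ^ j • (ζ ^ (-m i) * x i) = ζ ^ (-m i) * x i := by
    intro j
    have h5 : s₀ ∈ MulAction.stabilizer G (ζ ^ (-m i) * x i) := h3 i
    exact (MulAction.stabilizer G (ζ ^ (-m i) * x i)).zpow_mem h5 j
  have h5 : (s₀ ^ k * s) • (ζ ^ (-m i) * x i) = ζ ^ (-m i) * x i := by
    rw [smul_mul', smul_zpow', hζ _ hk, hN _ (S.mul_mem (S.zpow_mem hs₀ k) hs) hk i]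
  have h6 : s = s₀ ^ (-k) * (s₀ ^ k * s) := by
    rw [← mul_assoc, ← zpow_add, neg_add_cancel, zpow_zero, one_mul]
  rw [h6, mul_smul, h5, h4]

theorem ku_b (S N : Subgroup G) (l : ℕ) (hl : l.Prime) (ω : B) (hωl : orderOf ω = l)
    (hω : ∀ b : B, b ^ l = 1 → ∃ m : ℤ, b = ω ^ m)
    (x : ι → B) (hx : ∀ s ∈ S, ∀ i, (s • x i) ^ l = x i ^ l)
    (hN : ∀ s ∈ S, s ∈ N → ∀ i, s • x i = x i) (hNω : ∀ s ∈ N, s • ω = ω)
    (s₀ : G) (hs₀ : s₀ ∈ S) (u : ℤ) (h0 : s₀ • ω = ω ^ u) (hu : ¬ (l : ℤ) ∣ u - 1)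
    (hcomm : ∀ s ∈ S, s * s₀ * s⁻¹ * s₀⁻¹ ∈ N) :
    ∃ a : ι → ℤ, ∀ s ∈ S, ∀ i, s • (ω ^ a i * x i) = ω ^ a i * x i := by
  have hone : ∀ m : ℤ, ω ^ m = 1 ↔ (l : ℤ) ∣ m := by
    intro m
    rw [← orderOf_dvd_iff_zpow_eq_one, hωl]
  have hlp : Prime (l : ℤ) := Nat.prime_iff_prime_int.1 hl
  have h1 : ∀ i, ∃ m : ℤ, s₀ • x i / x i = ω ^ m := by
    intro i
    apply hω
    rw [div_pow, hx s₀ hs₀ i, div_self']
  choose m hm using h1
  have h2 : ∀ i, s₀ • x i = ω ^ m i * x i := fun i => by rw [← hm i, div_mul_cancel]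
  have hcop : IsCoprime (u - 1) (l : ℤ) := by
    rw [isCoprime_comm]
    exact (Prime.coprime_iff_not_dvd hlp).2 hu
  obtain ⟨p, q, hpq⟩ := hcop
  have h3 : ∀ i, s₀ • (ω ^ (-(p * m i)) * x i) = ω ^ (-(p * m i)) * x i := by
    intro i
    rw [smul_mul', smul_zpow', h0, h2, ← zpow_mul, ← mul_assoc, ← zpow_add]
    congr 1
    rw [← div_eq_one, div_eq_mul_inv, ← zpow_sub, hone]
    refine ⟨q * m i, ?_⟩
    have : (u * -(p * m i) + m i - -(p * m i)) = (1 - p * (u - 1)) * m i := by ring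
    rw [this]
    have h4 : 1 - p * (u - 1) = q * l := by linarith
    rw [h4]
    ring
  refine ⟨fun i => -(p * m i), fun s hs i => ?_⟩
  obtain ⟨y, hy⟩ : ∃ y, y = ω ^ (-(p * m i)) * x i := ⟨_, rfl⟩
  have hfix : s₀ • y = y := by rw [hy]; exact h3 i
  rw [← hy]
  have hyl : ∃ b : ℤ, s • y / y = ω ^ b := by
    apply hω
    have hωp : ω ^ l = 1 := by rw [← hωl, pow_orderOf_eq_one]
    have h5 : y ^ l = x i ^ l := by
      rw [hy, mul_pow, ← zpow_natCast (ω ^ (-(p * m i))), ← zpow_mul, mul_comm (-(p * m i)),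
        zpow_mul, zpow_natCast, hωp, one_zpow, one_mul]
    have h6 : (s • y) ^ l = x i ^ l := by
      rw [← smul_pow', h5, smul_pow', hx s hs i]
    rw [div_pow, h6, h5, div_self']
  obtain ⟨b, hb⟩ := hyl
  have h7 : s • y = ω ^ b * y := by rw [← hb, div_mul_cancel]
  obtain ⟨t, ht⟩ : ∃ t, t = s * s₀ * s⁻¹ * s₀⁻¹ := ⟨_, rfl⟩
  have htN : t ∈ N := by rw [ht]; exact hcomm s hs
  have htS : t ∈ S := by
    rw [ht]
    exact S.mul_mem (S.mul_mem (S.mul_mem hs hs₀) (S.inv_mem hs)) (S.inv_mem hs₀)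
  have hty : ∀ c : ℤ, t • (ω ^ c * y) = ω ^ c * y := by
    intro c
    rw [hy, smul_mul', smul_mul', smul_zpow', smul_zpow', hNω t htN, hN t htS htN i]
  have h8 : s * s₀ = t * (s₀ * s) := by
    rw [ht]
    group
  have h9 : (s * s₀) • y = ω ^ b * y := by rw [mul_smul, hfix, h7]
  have h10 : (t * (s₀ * s)) • y = ω ^ (u * b) * y := by
    rw [mul_smul, mul_smul, h7, smul_mul' s₀, smul_zpow', h0, hfix, ← zpow_mul]
    exact hty (u * b)
  rw [h8, h10] at h9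
  have h11 : ω ^ (u * b) = ω ^ b := mul_right_cancel h9
  rw [← div_eq_one, div_eq_mul_inv, ← zpow_sub, hone] at h11
  have h12 : (l : ℤ) ∣ (u - 1) * b := by
    have : u * b - b = (u - 1) * b := by ring
    rwa [this] at h11
  rcases hlp.dvd_or_dvd h12 with h | h
  · exact absurd h hu
  · rw [h7, (hone b).2 h, one_mul]

end Pool.Agent.H84.PT2
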