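import Pool.Agent.H84.PT2.Cnt

/-!
# Elements with prescribed values at all places over `l`

The value `‖κ x‖` depends only on the prime of `κ`; for `ρ_1, .., ρ_n` in `E` there is `b` in `E` with
`‖κ b‖ = ∏ max(1, ‖κ ρ_i‖)^M` for all embeddings `κ`.
-/

set_option autoImplicit false
set_option linter.unusedSectionVars false

open NumberField Ideal

namespace Pool.Agent.H84.PT2

variable {E : Type*} [Field E] [NumberField E] {C : Type*} [NormedField C] [IsUltrametricDist C]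

theorem exists_ng (κ : E →+* C) (π s : 𝓞 E) (hπ1 : ‖κ (π : E)‖ < 1)
    (hsP : s ∉ kerP κ) (hs : ∀ a ∈ kerP κ, ∃ t : 𝓞 E, a * s = π * t) (a : 𝓞 E)
    (ha : a ≠ 0) : ∃ (n : ℕ) (a' : 𝓞 E), a' ∉ kerP κ ∧ a * s ^ n = π ^ n * a' := by
  by_contra hcon
  push Not at hcon
  have h1 : ∀ n : ℕ, ∃ t : 𝓞 E, a * s ^ n = π ^ n * t := by
    intro n
    induction n with
    | zero => exact ⟨a, by simp⟩
    | succ n ih =>
      obtain ⟨t, ht⟩ := ih
      have htP : t ∈ kerP κ := by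
        by_contra h
        exact hcon n t h ht
      obtain ⟨t', ht'⟩ := hs t htP
      refine ⟨t', ?_⟩
      calc a * s ^ (n + 1) = (a * s ^ n) * s := by ring
        _ = π ^ n * (t * s) := by rw [ht]; ring
        _ = π ^ (n + 1) * t' := by rw [ht']; ring
  have ha0 : 0 < ‖κ (a : E)‖ := by
    rw [norm_pos_iff, Ne, map_eq_zero]
    exact_mod_cast ha
  obtain ⟨n, hn⟩ := exists_pow_lt_of_lt_one ha0 hπ1
  obtain ⟨t, ht⟩ := h1 n
  have h2 : ‖κ ((a * s ^ n : 𝓞 E) : E)‖ = ‖κ ((π ^ n * t : 𝓞 E) : E)‖ := by rw [ht]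
  have h3 : ‖κ ((a * s ^ n : 𝓞 E) : E)‖ = ‖κ (a : E)‖ := by
    simp [kerP_not κ hsP]
  have h4 : ‖κ ((π ^ n * t : 𝓞 E) : E)‖ = ‖κ (π : E)‖ ^ n * ‖κ (t : E)‖ := by simp
  rw [h3, h4] at h2
  have h5 : ‖κ (π : E)‖ ^ n * ‖κ (t : E)‖ ≤ ‖κ (π : E)‖ ^ n :=
    mul_le_of_le_one_right (by positivity) (int_norm κ t)
  linarith

theorem loc_aux (κ : E →+* C) (π s : 𝓞 E) (hπ0 : π ≠ 0) (hπ1 : ‖κ (π : E)‖ < 1)
    (hsP : s ∉ kerP κ) (hs : ∀ a ∈ kerP κ, ∃ t : 𝓞 E, a * s = π * t) (x : E) (hx : x ≠ 0) :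
    ∃ (z : ℤ) (A B : 𝓞 E), B ∉ kerP κ ∧
      (∀ κ' : E →+* C, kerP κ' = kerP κ → ‖κ' x‖ = ‖κ' (π : E)‖ ^ z) ∧ (0 ≤ z → x * B = A) := by
  have hPp := kerP_prime κ
  obtain ⟨a, b, hb, hab⟩ := IsFractionRing.div_surjective (A := 𝓞 E) x
  have hb0 : b ≠ 0 := nonZeroDivisors.ne_zero hb
  have ha0 : a ≠ 0 := by
    rintro rfl
    apply hx
    rw [← hab, map_zero, zero_div]
  obtain ⟨n, a', ha', han⟩ := exists_ng κ π s hπ1 hsP hs a ha0
  obtain ⟨m, b', hb', hbm⟩ := exists_ng κ π s hπ1 hsP hs b hb0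
  have hlE : (π : E) ≠ 0 := by exact_mod_cast hπ0
  have hbE : (b : E) ≠ 0 := by exact_mod_cast hb0
  have hsE : (s : E) ≠ 0 := by
    intro h
    apply hsP
    rw [mem_kerP, h]
    simp
  have hb'E : (b' : E) ≠ 0 := by
    intro h
    apply hb'
    rw [mem_kerP, h]
    simp
  have e1 : (a : E) * (s : E) ^ n = (π : E) ^ n * (a' : E) := by
    have := congrArg (fun y : 𝓞 E => (y : E)) han
    simpa using this
  have e2 : (b : E) * (s : E) ^ m = (π : E) ^ m * (b' : E) := by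
    have := congrArg (fun y : 𝓞 E => (y : E)) hbm
    simpa using this
  have hxab : x = (a : E) / (b : E) := hab.symm
  refine ⟨(n : ℤ) - m, π ^ (n - m) * a', b' * s ^ (n - m), ?_, ?_, ?_⟩
  · intro h
    rcases hPp.mem_or_mem h with h | h
    · exact hb' h
    · exact hsP (hPp.mem_of_pow_mem _ h)
  · intro κ' hκ'
    have hs' : ‖κ' (s : E)‖ = 1 := kerP_not κ' (by rw [hκ']; exact hsP)
    have ha'' : ‖κ' (a' : E)‖ = 1 := kerP_not κ' (by rw [hκ']; exact ha')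
    have hb'' : ‖κ' (b' : E)‖ = 1 := kerP_not κ' (by rw [hκ']; exact hb')
    have hln : ‖κ' (π : E)‖ ≠ 0 := norm_ne_zero_iff.2 ((map_ne_zero κ').2 hlE)
    have n1 : ‖κ' (a : E)‖ = ‖κ' (π : E)‖ ^ n := by
      have := congrArg (fun y : E => ‖κ' y‖) e1
      simpa [hs', ha''] using this
    have n2 : ‖κ' (b : E)‖ = ‖κ' (π : E)‖ ^ m := by
      have := congrArg (fun y : E => ‖κ' y‖) e2
      simpa [hs', hb''] using this
    rw [hxab, map_div₀, norm_div, n1, n2, zpow_sub₀ hln, zpow_natCast, zpow_natCast]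
  · intro hz
    have hnm : m ≤ n := by omega
    obtain ⟨d, rfl⟩ := Nat.exists_eq_add_of_le hnm
    have e3 : ((π ^ (m + d - m) * a' : 𝓞 E) : E) = (π : E) ^ d * (a' : E) := by
      simp
    have e4 : ((b' * s ^ (m + d - m) : 𝓞 E) : E) = (b' : E) * (s : E) ^ d := by
      simp
    rw [e3, e4, hxab, div_mul_eq_mul_div, div_eq_iff hbE]
    have hsm : (s : E) ^ m ≠ 0 := pow_ne_zero _ hsE
    apply mul_right_cancel₀ hsm
    calc (a : E) * ((b' : E) * (s : E) ^ d) * (s : E) ^ m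
        = ((a : E) * (s : E) ^ (m + d)) * (b' : E) := by rw [pow_add]; ring
      _ = (π : E) ^ d * (a' : E) * ((π : E) ^ m * (b' : E)) := by rw [e1, pow_add]; ring
      _ = (π : E) ^ d * (a' : E) * (b : E) * (s : E) ^ m := by rw [← e2]; ring

/-- a uniformizer and an auxiliary element -/
theorem exists_unif (κ : E →+* C) (l : ℕ) [hl : Fact l.Prime] (hl1 : ‖(l : C)‖ < 1) :
    ∃ π s : 𝓞 E, π ≠ 0 ∧ (∀ κ' : E →+* C, kerP κ' = kerP κ →
        ‖κ' (π : E)‖ < 1 ∧ ‖κ' (π : E)‖ ^ eP E l (kerP κ) = ‖(l : C)‖) ∧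
      s ∉ kerP κ ∧ ∀ a ∈ kerP κ, ∃ t : 𝓞 E, a * s = π * t := by
  obtain ⟨π, J, hπ0, hJ, hJ2, -⟩ := exists_pi l (kerP κ) (kerP_over κ l hl1)
  have hJP := hJ2 _ (kerP_over κ l hl1)
  obtain ⟨s, hs, hsP⟩ := SetLike.not_le_iff_exists.1 hJP
  refine ⟨π, s, hπ0, ?_, hsP, ?_⟩
  · intro κ' hκ'
    constructor
    · have h1 : π ∈ kerP κ' := by
        rw [hκ', ← span_singleton_le_iff_mem, hJ]
        exact Ideal.mul_le_left
      exact h1
    · have h1 : span {π} = kerP κ' * J := by rw [hκ']; exact hJ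
      have h2 : ¬ J ≤ kerP κ' := by rw [hκ']; exact hJP
      have h3 := pi_value κ' l hl1 π J h1 h2
      rw [hκ'] at h3
      exact h3
  · intro a ha
    have h1 : a * s ∈ span {π} := by
      rw [hJ]
      exact Ideal.mul_mem_mul ha hs
    obtain ⟨t, ht⟩ := Ideal.mem_span_singleton'.1 h1
    exact ⟨t, by rw [← ht, mul_comm]⟩

/-- the value depends only on the prime -/
theorem val_eq (κ κ' : E →+* C) (l : ℕ) [hl : Fact l.Prime] (hl1 : ‖(l : C)‖ < 1)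
    (h : kerP κ' = kerP κ) (x : E) : ‖κ' x‖ = ‖κ x‖ := by
  by_cases h0 : x = 0
  · rw [h0, map_zero, map_zero]
  obtain ⟨π, s, hπ0, hπ, hsP, hs⟩ := exists_unif κ l hl1
  obtain ⟨z, A, B, hB, hz, -⟩ := loc_aux κ π s hπ0 (hπ κ rfl).1 hsP hs x h0
  rw [hz κ' h, hz κ rfl]
  have h1 : ‖κ' (π : E)‖ ^ eP E l (kerP κ) = ‖κ (π : E)‖ ^ eP E l (kerP κ) := by
    rw [(hπ κ' h).2, (hπ κ rfl).2]
  have he : eP E l (kerP κ) ≠ 0 := by
    intro he
    have h2 := (hπ κ rfl).2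
    rw [he, pow_zero] at h2
    rw [← h2] at hl1
    exact lt_irrefl _ hl1
  have h2 := (pow_left_inj₀ (norm_nonneg _) (norm_nonneg _) he).1 h1
  rw [h2]

/-- one element: `‖κ c‖ = max(1, ‖κ ρ‖)` -/
theorem exists_c (l : ℕ) [hl : Fact l.Prime] (hl1 : ‖(l : C)‖ < 1) (ρ : E) :
    ∃ c : E, ∀ κ : E →+* C, ‖κ c‖ = max 1 ‖κ ρ‖ := by
  classical
  obtain ⟨m, hm⟩ := IsDedekindDomain.exists_forall_sub_mem_ideal (s := overP E l)
    (fun Q : Ideal (𝓞 E) => Q) (fun _ => 1)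
    (fun Q hQ => Ideal.prime_of_isPrime (over_ne E l hQ) ((mem_over E l).1 hQ).1)
    (fun Q _ R _ h => h)
    (fun Q => if ∃ κ : E →+* C, kerP κ = (Q : Ideal (𝓞 E)) ∧ 1 < ‖κ ρ‖ then 1 else 0)
  refine ⟨1 + (m : E) * ρ, fun κ => ?_⟩
  have hmP := hm (kerP κ) (kerP_over κ l hl1)
  simp only [pow_one] at hmP
  by_cases h : 1 < ‖κ ρ‖
  · rw [if_pos ⟨κ, rfl, h⟩] at hmP
    have h1 : ‖κ (m : E)‖ = 1 := by
      refine kerP_not κ fun h2 => ?_
      have h3 : (1 : 𝓞 E) ∈ kerP κ := by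
        have := (kerP κ).sub_mem h2 hmP
        simpa using this
      exact (kerP_prime κ).ne_top ((Ideal.eq_top_iff_one _).2 h3)
    rw [max_eq_right h.le, map_add, map_one, map_mul]
    have h2 : ‖κ (m : E) * κ ρ‖ = ‖κ ρ‖ := by rw [norm_mul, h1, one_mul]
    have h3 : ‖(1 : C)‖ < ‖κ (m : E) * κ ρ‖ := by rw [h2, norm_one]; exact h
    rw [IsUltrametricDist.norm_add_eq_max_of_norm_ne_norm h3.ne, max_eq_right h3.le, h2]
  · have hno : ¬ ∃ κ' : E →+* C, kerP κ' = kerP κ ∧ 1 < ‖κ' ρ‖ := by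
      rintro ⟨κ', h1, h2⟩
      rw [val_eq κ κ' l hl1 h1] at h2
      exact h h2
    rw [if_neg hno, sub_zero, mem_kerP] at hmP
    rw [max_eq_left (not_lt.1 h), map_add, map_one, map_mul]
    have h3 : ‖κ (m : E) * κ ρ‖ < ‖(1 : C)‖ := by
      rw [norm_mul, norm_one]
      exact (mul_le_of_le_one_right (norm_nonneg _) (not_lt.1 h)).trans_lt hmP
    rw [IsUltrametricDist.norm_add_eq_max_of_norm_ne_norm h3.ne', max_eq_left h3.le, norm_one]

/-- `‖κ b‖ = ∏ max(1, ‖κ ρ_i‖)^M` -/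
theorem exists_b (l : ℕ) [hl : Fact l.Prime] (hl1 : ‖(l : C)‖ < 1) {ι : Type*} [Fintype ι]
    (ρ : ι → E) (M : ℕ) : ∃ b : E, ∀ κ : E →+* C, ‖κ b‖ = ∏ i, max 1 ‖κ (ρ i)‖ ^ M := by
  choose c hc using fun i => exists_c (C := C) l hl1 (ρ i)
  refine ⟨∏ i, c i ^ M, fun κ => ?_⟩
  rw [map_prod, norm_prod]
  refine Finset.prod_congr rfl fun i _ => ?_
  rw [map_pow, norm_pow, hc i κ]

end Pool.Agent.H84.PT2
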