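import Mathlib

/-!
# A determinant whose minors are small

`v` a nonarchimedean absolute value on `E`, `F` a subfield with `v a < 1 → v a ≤ q` on `F`. If `B` is a `D × D` matrix
over `F` with entries of value at most one all of whose `(s+1)`-minors have value `< 1`, then `v (det B) ≤ q^(D-s)`.
-/

set_option autoImplicit false

namespace Pool.Agent.H84.PT2

theorem schur {E : Type*} [Field E] {n : ℕ} (M : Matrix (Fin (n + 1)) (Fin (n + 1)) E)
    (h : M 0 0 ≠ 0) :
    M.det = M 0 0 *
      (Matrix.of fun i j : Fin n => M i.succ j.succ - M i.succ 0 * M 0 j.succ / M 0 0).det := by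
  classical
  let c : Fin (n + 1) → E := Fin.cons 0 fun i => -(M i.succ 0 / M 0 0)
  let A : Matrix (Fin (n + 1)) (Fin (n + 1)) E := Matrix.of fun i j => M i j + c i * M 0 j
  have h1 : A.det = M.det :=
    Matrix.det_eq_of_forall_row_eq_smul_add_const c 0 rfl (fun i j => rfl)
  rw [← h1, Matrix.det_succ_column_zero, Fin.sum_univ_succ]
  have h2 : ∀ i : Fin n, A i.succ 0 = 0 := by
    intro i
    have : A i.succ 0 = M i.succ 0 + -(M i.succ 0 / M 0 0) * M 0 0 := rfl
    rw [this]
    field_simp
    ring
  have h3 : A 0 0 = M 0 0 := by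
    have : A 0 0 = M 0 0 + 0 * M 0 0 := rfl
    rw [this]
    ring
  have h4 : (∑ i : Fin n, (-1) ^ (i.succ : ℕ) * A i.succ 0 *
      (A.submatrix i.succ.succAbove Fin.succ).det) = 0 := by
    refine Finset.sum_eq_zero fun i _ => ?_
    rw [h2, mul_zero, zero_mul]
  rw [h4, add_zero, h3]
  have h5 : A.submatrix (Fin.succAbove 0) Fin.succ =
      Matrix.of fun i j : Fin n => M i.succ j.succ - M i.succ 0 * M 0 j.succ / M 0 0 := by
    ext i j
    have : A.submatrix (Fin.succAbove 0) Fin.succ i j =
        M i.succ j.succ + -(M i.succ 0 / M 0 0) * M 0 j.succ := rfl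
    rw [this, Matrix.of_apply]
    ring
  rw [h5]
  simp

variable {E : Type*} [Field E] (v : AbsoluteValue E ℝ) (hv : IsNonarchimedean v)

include hv in
theorem sum_le' {ι : Type*} (s : Finset ι) (f : ι → E) (c : ℝ) (hc : 0 ≤ c)
    (h : ∀ i ∈ s, v (f i) ≤ c) : v (∑ i ∈ s, f i) ≤ c := by
  classical
  induction s using Finset.induction_on with
  | empty => simpa using hc
  | insert a s ha ih =>
    rw [Finset.sum_insert ha]
    exact (hv _ _).trans (max_le (h a (Finset.mem_insert_self a s))
      (ih fun i hi => h i (Finset.mem_insert_of_mem hi)))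

include hv in
theorem det_le_pow {n : Type*} [Fintype n] [DecidableEq n] (B : Matrix n n E) (q : ℝ) (hq : 0 ≤ q)
    (h : ∀ i j, v (B i j) ≤ q) : v B.det ≤ q ^ Fintype.card n := by
  rw [Matrix.det_apply']
  refine sum_le' v hv _ _ _ (pow_nonneg hq _) fun σ _ => ?_
  have h1 : v ((Equiv.Perm.sign σ : ℤ) : E) = 1 := by
    rcases Int.units_eq_one_or (Equiv.Perm.sign σ) with h | h <;> simp [h]
  rw [map_mul, h1, one_mul, map_prod]
  calc ∏ i, v (B (σ i) i) ≤ ∏ _i : n, q :=
        Finset.prod_le_prod (fun i _ => v.nonneg _) fun i _ => h _ _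
    _ = q ^ Fintype.card n := by simp

include hv in
/-- **The value of a determinant all of whose `(s+1)`-minors are small.** -/
theorem minor_det (F : Subfield E) (q : ℝ) (hq0 : 0 ≤ q) (hq1 : q ≤ 1)
    (hF : ∀ a ∈ F, v a < 1 → v a ≤ q) :
    ∀ (D s : ℕ) (B : Matrix (Fin D) (Fin D) E), (∀ i j, B i j ∈ F) → (∀ i j, v (B i j) ≤ 1) →
      (∀ r c : Fin (s + 1) → Fin D, v (B.submatrix r c).det < 1) → v B.det ≤ q ^ (D - s) := by
  classical
  intro D
  induction D with
  | zero =>
    intro s B _ _ _
    simp
  | succ D ih =>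
    intro s B hB hB1 hm
    by_cases hall : ∀ i j, v (B i j) < 1
    · have h1 := det_le_pow v hv B q hq0 (fun i j => hF _ (hB i j) (hall i j))
      rw [Fintype.card_fin] at h1
      exact h1.trans (pow_le_pow_of_le_one hq0 hq1 (Nat.sub_le _ _))
    · push Not at hall
      obtain ⟨i0, j0, hij⟩ := hall
      have hb1 : v (B i0 j0) = 1 := le_antisymm (hB1 i0 j0) hij
      -- `s ≥ 1`
      obtain ⟨t, rfl⟩ : ∃ t, s = t + 1 := by
        rcases s with _ | t
        · exfalso
          have h1 := hm (fun _ => i0) (fun _ => j0)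
          rw [Matrix.det_fin_one] at h1
          have h2 : v (B i0 j0) < 1 := h1
          linarith
        · exact ⟨t, rfl⟩
      let σ : Equiv.Perm (Fin (D + 1)) := Equiv.swap 0 i0
      let τ : Equiv.Perm (Fin (D + 1)) := Equiv.swap 0 j0
      let M : Matrix (Fin (D + 1)) (Fin (D + 1)) E := B.submatrix σ τ
      have hM00 : M 0 0 = B i0 j0 := by
        simp [M, σ, τ]
      have hM0 : M 0 0 ≠ 0 := by
        rw [hM00]
        intro h
        rw [h, map_zero] at hb1
        exact zero_ne_one hb1
      have hdet : v M.det = v B.det := by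
        have h1 : M = (B.submatrix σ id).submatrix id τ := by
          ext i j; rfl
        rw [h1, Matrix.det_permute', Matrix.det_permute]
        have h2 : ∀ ρ : Equiv.Perm (Fin (D + 1)), v ((Equiv.Perm.sign ρ : ℤ) : E) = 1 := by
          intro ρ
          rcases Int.units_eq_one_or (Equiv.Perm.sign ρ) with h | h <;> simp [h]
        rw [map_mul, map_mul, h2, h2, one_mul, one_mul]
      have hMF : ∀ i j, M i j ∈ F := fun i j => hB _ _
      have hM1 : ∀ i j, v (M i j) ≤ 1 := fun i j => hB1 _ _
      let B' : Matrix (Fin D) (Fin D) E :=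
        Matrix.of fun i j : Fin D => M i.succ j.succ - M i.succ 0 * M 0 j.succ / M 0 0
      have hB'F : ∀ i j, B' i j ∈ F := fun i j =>
        F.sub_mem (hMF _ _) (F.div_mem (F.mul_mem (hMF _ _) (hMF _ _)) (hMF _ _))
      have hvb : v (M 0 0) = 1 := by rw [hM00, hb1]
      have hB'1 : ∀ i j, v (B' i j) ≤ 1 := by
        intro i j
        have h1 : B' i j = M i.succ j.succ + -(M i.succ 0 * M 0 j.succ / M 0 0) := by
          simp [B', sub_eq_add_neg]
        rw [h1]
        refine (hv _ _).trans (max_le (hM1 _ _) ?_)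
        rw [map_neg_eq_map, map_div₀, map_mul, hvb, div_one]
        exact mul_le_one₀ (hM1 _ _) (v.nonneg _) (hM1 _ _)
      have hB'm : ∀ r c : Fin (t + 1) → Fin D, v (B'.submatrix r c).det < 1 := by
        intro r c
        let r' : Fin (t + 1 + 1) → Fin (D + 1) := Fin.cons 0 fun i => (r i).succ
        let c' : Fin (t + 1 + 1) → Fin (D + 1) := Fin.cons 0 fun i => (c i).succ
        have h1 : (M.submatrix r' c') 0 0 = M 0 0 := rfl
        have h2 := schur (M.submatrix r' c') (by rw [h1]; exact hM0)
        have h3 : (Matrix.of fun i j : Fin (t + 1) => (M.submatrix r' c') i.succ j.succ -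
            (M.submatrix r' c') i.succ 0 * (M.submatrix r' c') 0 j.succ /
              (M.submatrix r' c') 0 0) = B'.submatrix r c := by
          ext i j
          rfl
        rw [h3, h1] at h2
        have h4 : v (M.submatrix r' c').det < 1 := hm (σ ∘ r') (τ ∘ c')
        rw [h2, map_mul, hvb, one_mul] at h4
        exact h4
      have hfin := ih t B' hB'F hB'1 hB'm
      rw [← hdet, schur M hM0, map_mul, hvb, one_mul]
      have e : D + 1 - (t + 1) = D - t := by omega
      rw [e]
      exact hfin

end Pool.Agent.H84.PT2
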