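import Mathlib

/-!
# Ramified primes and the discriminant

`E` a number field, `l` a prime number, `e_P`, `f_P` the ramification index and the inertia degree of `P | l`:
`l ^ (∑ (e_P - 1) f_P)` divides `discr E`, the sum of `e_P f_P` over all `P` is the degree, and over the `P` with
`e_P ≥ 2` it is at most `2 v_l(discr E)`.
-/

set_option autoImplicit false

open NumberField Ideal IsDedekindDomain

namespace Pool.Agent.H84.PT2

variable (E : Type*) [Field E] [NumberField E] (l : ℕ) [hl : Fact l.Prime]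

/-- the primes over `l` -/
noncomputable def overP : Finset (Ideal (𝓞 E)) :=
  IsDedekindDomain.primesOverFinset (span {(l : ℤ)}) (𝓞 E)

/-- the ramification index over `l` -/
noncomputable def eP (P : Ideal (𝓞 E)) : ℕ := ramificationIdx' (span {(l : ℤ)}) P

/-- the inertia degree over `l` -/
noncomputable def fP (P : Ideal (𝓞 E)) : ℕ := inertiaDeg' (span {(l : ℤ)}) P

theorem span_ne : (span {(l : ℤ)} : Ideal ℤ) ≠ ⊥ := by
  rw [Ne, span_singleton_eq_bot]
  exact_mod_cast hl.out.ne_zero

instance span_max : (span {(l : ℤ)} : Ideal ℤ).IsMaximal := by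
  have h : (span {(l : ℤ)} : Ideal ℤ).IsPrime := by
    rw [span_singleton_prime (by exact_mod_cast hl.out.ne_zero)]
    exact Nat.prime_iff_prime_int.1 hl.out
  exact h.isMaximal (span_ne l)

theorem mem_over {P : Ideal (𝓞 E)} :
    P ∈ overP E l ↔ P.IsPrime ∧ P.LiesOver (span {(l : ℤ)}) := by
  rw [overP, IsDedekindDomain.mem_primesOverFinset_iff (span_ne l)]
  rfl

theorem over_ne {P : Ideal (𝓞 E)} (hP : P ∈ overP E l) : P ≠ ⊥ := by
  have h := (mem_over E l).1 hP
  have := h.2
  exact ne_bot_of_liesOver_of_ne_bot (span_ne l) P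

theorem over_max {P : Ideal (𝓞 E)} (hP : P ∈ overP E l) : P.IsMaximal :=
  ((mem_over E l).1 hP).1.isMaximal (over_ne E l hP)

theorem over_norm {P : Ideal (𝓞 E)} (hP : P ∈ overP E l) : absNorm P = l ^ fP E l P := by
  have h := ((mem_over E l).1 hP).2
  exact absNorm_eq_pow_inertiaDeg' P hl.out

theorem sum_ef : ∑ P ∈ overP E l, eP E l P * fP E l P = Module.finrank ℚ E :=
  sum_ramification_inertia (𝓞 E) ℚ E (span_ne l)

theorem pow_dvd_discr :
    l ^ (∑ P ∈ overP E l, (eP E l P - 1) * fP E l P) ∣ (discr E).natAbs := by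
  classical
  have h1 : (∏ P ∈ overP E l, P ^ (eP E l P - 1)) ∣ differentIdeal ℤ (𝓞 E) := by
    refine Finset.prod_dvd_of_coprime ?_ ?_
    · intro P hP Q hQ hPQ
      have h1 := over_max E l hP
      have h2 := over_max E l hQ
      exact IsCoprime.pow (isCoprime_iff_sup_eq.2 (h1.coprime_of_ne h2 hPQ))
    · intro P hP
      refine pow_sub_one_dvd_differentIdeal ℤ (p := span {(l : ℤ)}) P _ (span_ne l) ?_
      exact dvd_iff_le.2 le_pow_ramificationIdx'
  have h2 := map_dvd absNorm h1
  rw [absNorm_differentIdeal E, map_prod] at h2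
  have h3 : ∏ P ∈ overP E l, absNorm (P ^ (eP E l P - 1)) =
      l ^ (∑ P ∈ overP E l, (eP E l P - 1) * fP E l P) := by
    rw [← Finset.prod_pow_eq_pow_sum]
    refine Finset.prod_congr rfl fun P hP => ?_
    rw [map_pow, over_norm E l hP, ← pow_mul, mul_comm]
  rwa [h3] at h2

theorem sum_le_val :
    ∑ P ∈ overP E l, (eP E l P - 1) * fP E l P ≤ padicValNat l (discr E).natAbs := by
  have h0 : (discr E).natAbs ≠ 0 := Int.natAbs_ne_zero.2 (discr_ne_zero E)
  exact (padicValNat_dvd_iff_le h0).1 (pow_dvd_discr E l)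

theorem ramified_le :
    ∑ P ∈ (overP E l).filter (fun P => 2 ≤ eP E l P), eP E l P * fP E l P ≤
      2 * padicValNat l (discr E).natAbs := by
  classical
  refine le_trans ?_ (Nat.mul_le_mul_left 2 (sum_le_val E l))
  rw [Finset.mul_sum]
  refine le_trans (Finset.sum_le_sum (fun P hP => ?_))
    (Finset.sum_le_sum_of_subset (Finset.filter_subset (fun P => 2 ≤ eP E l P) (overP E l)))
  have h2 := (Finset.mem_filter.1 hP).2
  rw [← mul_assoc]
  exact Nat.mul_le_mul_right _ (by omega)

end Pool.Agent.H84.PT2
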