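import Pool.Agent.H84.PT2.Ram
import Pool.Agent.H84.PT2.Frob

/-!
# Values at an unramified place

`κ : E → C`, `C` an ultrametric normed field with `‖l‖ < 1`, `P = {x ∈ 𝓞 E : ‖κ x‖ < 1}`, a prime over `l`. If
`e_P = 1` then `‖κ x‖ < 1` implies `‖κ x‖ ≤ ‖l‖`, and `κ x ^ (l ^ f_P) = κ x` modulo `l` for `‖κ x‖ ≤ 1`.
-/

set_option autoImplicit false
set_option linter.unusedSectionVars false
set_option linter.unusedVariables false

open NumberField Ideal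

namespace Pool.Agent.H84.PT2

variable {E : Type*} [Field E] [NumberField E] {C : Type*} [NormedField C] [IsUltrametricDist C]

theorem int_norm (κ : E →+* C) (x : 𝓞 E) : ‖κ (x : E)‖ ≤ 1 := by
  have h1 : IsIntegral ℤ (κ (x : E)) := (RingOfIntegers.isIntegral_coe x).map κ.toIntAlgHom
  let v : Valuation C NNReal := NormedField.valuation
  have h3 : IsIntegral v.integer (κ (x : E)) := h1.tower_top
  have h4 := Valuation.Integers.mem_of_integral (Valuation.integer.integers v) h3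
  have h5 : v (κ (x : E)) ≤ 1 := h4
  have h6 : ‖κ (x : E)‖₊ ≤ 1 := h5
  exact_mod_cast h6

/-- the prime of the place `κ` -/
def kerP (κ : E →+* C) : Ideal (𝓞 E) where
  carrier := {x | ‖κ (x : E)‖ < 1}
  zero_mem' := by simp
  add_mem' := by
    intro a b ha hb
    have h : ‖κ (a : E) + κ (b : E)‖ < 1 :=
      (IsUltrametricDist.norm_add_le_max _ _).trans_lt (max_lt ha hb)
    simpa using h
  smul_mem' := by
    intro c a ha
    have h : ‖κ (c : E)‖ * ‖κ (a : E)‖ < 1 :=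
      (mul_le_of_le_one_left (norm_nonneg _) (int_norm κ c)).trans_lt ha
    simpa using h

theorem mem_kerP (κ : E →+* C) (x : 𝓞 E) : x ∈ kerP κ ↔ ‖κ (x : E)‖ < 1 := Iff.rfl

theorem kerP_not (κ : E →+* C) {x : 𝓞 E} (h : x ∉ kerP κ) : ‖κ (x : E)‖ = 1 :=
  le_antisymm (int_norm κ x) (not_lt.1 h)

theorem kerP_prime (κ : E →+* C) : (kerP κ).IsPrime := by
  refine ⟨?_, ?_⟩
  · rw [Ne, Ideal.eq_top_iff_one, mem_kerP]
    simp
  · intro a b hab
    by_contra h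
    push Not at h
    have h1 := kerP_not κ h.1
    have h2 := kerP_not κ h.2
    rw [mem_kerP] at hab
    have h3 : ‖κ ((a * b : 𝓞 E) : E)‖ = ‖κ (a : E)‖ * ‖κ (b : E)‖ := by simp
    rw [h3, h1, h2] at hab
    norm_num at hab

theorem kerP_over (κ : E →+* C) (l : ℕ) [hl : Fact l.Prime] (hl1 : ‖(l : C)‖ < 1) :
    kerP κ ∈ overP E l := by
  rw [mem_over]
  refine ⟨kerP_prime κ, ⟨?_⟩⟩
  have h1 : (span {(l : ℤ)} : Ideal ℤ) ≤ Ideal.under ℤ (kerP κ) := by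
    rw [span_singleton_le_iff_mem, Ideal.under_def, Ideal.mem_comap, mem_kerP]
    simpa using hl1
  have hp := kerP_prime κ
  have h2 : Ideal.under ℤ (kerP κ) ≠ ⊤ := (Ideal.IsPrime.under ℤ (kerP κ)).ne_top
  exact (span_max l).eq_of_le h2 h1

/-- the auxiliary element: `s ∉ P`, `s P ⊆ (l)` -/
theorem exists_s (P : Ideal (𝓞 E)) (l : ℕ) [hl : Fact l.Prime] (hP : P ∈ overP E l)
    (he : eP E l P = 1) : ∃ s : 𝓞 E, s ∉ P ∧ ∀ a ∈ P, ∃ t : 𝓞 E, a * s = (l : 𝓞 E) * t := by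
  classical
  have hPp : P.IsPrime := ((mem_over E l).1 hP).1
  have hmap : Ideal.map (algebraMap ℤ (𝓞 E)) (span {(l : ℤ)}) = span {(l : 𝓞 E)} := by
    rw [Ideal.map_span, Set.image_singleton]
    simp
  have hl0 : (l : 𝓞 E) ≠ 0 := by exact_mod_cast hl.out.ne_zero
  have hne : Ideal.map (algebraMap ℤ (𝓞 E)) (span {(l : ℤ)}) ≠ ⊥ := by
    rw [hmap, Ne, span_singleton_eq_bot]
    exact hl0
  have h1 : P ∣ span {(l : 𝓞 E)} := by
    rw [← hmap]
    have := le_pow_of_le_ramificationIdx' (p := span {(l : ℤ)}) (P := P) (n := 1) he.ge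
    rw [pow_one] at this
    exact dvd_iff_le.2 this
  obtain ⟨Q, hQ⟩ := h1
  have h2 : ¬ P ∣ Q := by
    rintro ⟨R, hR⟩
    have h3 : P ^ 2 ∣ Ideal.map (algebraMap ℤ (𝓞 E)) (span {(l : ℤ)}) := by
      rw [hmap, hQ, hR]
      exact ⟨R, by ring⟩
    have h4 := IsDedekindDomain.ramificationIdx'_eq_multiplicity hne hPp
    have h5 : FiniteMultiplicity P (Ideal.map (algebraMap ℤ (𝓞 E)) (span {(l : ℤ)})) :=
      FiniteMultiplicity.of_not_isUnit
        (fun h => hPp.ne_top (Ideal.isUnit_iff.1 h)) hne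
    have h6 := h5.le_multiplicity_of_pow_dvd h3
    rw [← h4] at h6
    have h7 : eP E l P = ramificationIdx' (span {(l : ℤ)}) P := rfl
    omega
  have h8 : ¬ Q ≤ P := fun h => h2 (dvd_iff_le.2 h)
  obtain ⟨s, hs, hsP⟩ := SetLike.not_le_iff_exists.1 h8
  refine ⟨s, hsP, fun a ha => ?_⟩
  have h9 : a * s ∈ span {(l : 𝓞 E)} := by
    rw [hQ]
    exact Ideal.mul_mem_mul ha hs
  obtain ⟨t, ht⟩ := Ideal.mem_span_singleton'.1 h9
  exact ⟨t, by rw [← ht, mul_comm]⟩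

/-- every nonzero integer is `l^n a' / s^n` with `a' ∉ P` -/
theorem exists_n (κ : E →+* C) (l : ℕ) [hl : Fact l.Prime] (hl1 : ‖(l : C)‖ < 1) (s : 𝓞 E)
    (hsP : s ∉ kerP κ) (hs : ∀ a ∈ kerP κ, ∃ t : 𝓞 E, a * s = (l : 𝓞 E) * t) (a : 𝓞 E)
    (ha : a ≠ 0) : ∃ (n : ℕ) (a' : 𝓞 E), a' ∉ kerP κ ∧ a * s ^ n = (l : 𝓞 E) ^ n * a' := by
  by_contra hcon
  push Not at hcon
  have h1 : ∀ n : ℕ, ∃ t : 𝓞 E, a * s ^ n = (l : 𝓞 E) ^ n * t := by
    intro n
    induction n with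
    | zero => exact ⟨a, by simp⟩
    | succ n ih =>
      obtain ⟨t, ht⟩ := ih
      have htP : t ∈ kerP κ := by
        by_contra h
        exact hcon n t h ht
      obtain ⟨t', ht'⟩ := hs t htP
      refine ⟨t', ?_⟩
      calc a * s ^ (n + 1) = (a * s ^ n) * s := by ring
        _ = (l : 𝓞 E) ^ n * (t * s) := by rw [ht]; ring
        _ = (l : 𝓞 E) ^ (n + 1) * t' := by rw [ht']; ring
  have ha0 : 0 < ‖κ (a : E)‖ := by
    rw [norm_pos_iff, Ne, map_eq_zero]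
    exact_mod_cast ha
  obtain ⟨n, hn⟩ := exists_pow_lt_of_lt_one ha0 hl1
  obtain ⟨t, ht⟩ := h1 n
  have h2 : ‖κ ((a * s ^ n : 𝓞 E) : E)‖ = ‖κ (((l : 𝓞 E) ^ n * t : 𝓞 E) : E)‖ := by rw [ht]
  have h3 : ‖κ ((a * s ^ n : 𝓞 E) : E)‖ = ‖κ (a : E)‖ := by
    simp [kerP_not κ hsP]
  have h4 : ‖κ (((l : 𝓞 E) ^ n * t : 𝓞 E) : E)‖ = ‖(l : C)‖ ^ n * ‖κ (t : E)‖ := by simp
  rw [h3, h4] at h2
  have h5 : ‖(l : C)‖ ^ n * ‖κ (t : E)‖ ≤ ‖(l : C)‖ ^ n :=
    mul_le_of_le_one_right (by positivity) (int_norm κ t)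
  linarith

theorem val_aux (κ : E →+* C) (l : ℕ) [hl : Fact l.Prime] (hl1 : ‖(l : C)‖ < 1)
    (he : eP E l (kerP κ) = 1) (x : E) (hx : x ≠ 0) :
    ∃ (z : ℤ) (A B : 𝓞 E), ‖κ x‖ = ‖(l : C)‖ ^ z ∧ B ∉ kerP κ ∧ (0 ≤ z → x * B = A) := by
  have hPp := kerP_prime κ
  obtain ⟨s, hsP, hs⟩ := exists_s (kerP κ) l (kerP_over κ l hl1) he
  obtain ⟨a, b, hb, hab⟩ := IsFractionRing.div_surjective (A := 𝓞 E) x
  have hb0 : b ≠ 0 := nonZeroDivisors.ne_zero hb
  have ha0 : a ≠ 0 := by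
    rintro rfl
    apply hx
    rw [← hab, map_zero, zero_div]
  obtain ⟨n, a', ha', han⟩ := exists_n κ l hl1 s hsP hs a ha0
  obtain ⟨m, b', hb', hbm⟩ := exists_n κ l hl1 s hsP hs b hb0
  have hlE : (l : E) ≠ 0 := by exact_mod_cast hl.out.ne_zero
  have hlC : (l : C) ≠ 0 := by
    have := (map_ne_zero κ).2 hlE
    simpa using this
  have hln : ‖(l : C)‖ ≠ 0 := norm_ne_zero_iff.2 hlC
  have hbE : (b : E) ≠ 0 := by exact_mod_cast hb0
  have hsE : (s : E) ≠ 0 := by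
    intro h
    apply hsP
    rw [mem_kerP, h]
    simp
  have hb'E : (b' : E) ≠ 0 := by
    intro h
    apply hb'
    rw [mem_kerP, h]
    simp
  have e1 : (a : E) * (s : E) ^ n = (l : E) ^ n * (a' : E) := by
    have := congrArg (fun y : 𝓞 E => (y : E)) han
    simpa using this
  have e2 : (b : E) * (s : E) ^ m = (l : E) ^ m * (b' : E) := by
    have := congrArg (fun y : 𝓞 E => (y : E)) hbm
    simpa using this
  have n1 : ‖κ (a : E)‖ = ‖(l : C)‖ ^ n := by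
    have := congrArg (fun y : E => ‖κ y‖) e1
    simpa [kerP_not κ hsP, kerP_not κ ha'] using this
  have n2 : ‖κ (b : E)‖ = ‖(l : C)‖ ^ m := by
    have := congrArg (fun y : E => ‖κ y‖) e2
    simpa [kerP_not κ hsP, kerP_not κ hb'] using this
  have hxab : x = (a : E) / (b : E) := hab.symm
  refine ⟨(n : ℤ) - m, (l : 𝓞 E) ^ (n - m) * a', b' * s ^ (n - m), ?_, ?_, ?_⟩
  · rw [hxab, map_div₀, norm_div, n1, n2, zpow_sub₀ hln, zpow_natCast, zpow_natCast]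
  · intro h
    rcases hPp.mem_or_mem h with h | h
    · exact hb' h
    · exact hsP (hPp.mem_of_pow_mem _ h)
  · intro hz
    have hnm : m ≤ n := by omega
    obtain ⟨d, rfl⟩ := Nat.exists_eq_add_of_le hnm
    have e3 : (((l : 𝓞 E) ^ (m + d - m) * a' : 𝓞 E) : E) = (l : E) ^ d * (a' : E) := by
      simp
    have e4 : ((b' * s ^ (m + d - m) : 𝓞 E) : E) = (b' : E) * (s : E) ^ d := by
      simp
    rw [e3, e4, hxab, div_mul_eq_mul_div, div_eq_iff hbE]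
    have hsm : (s : E) ^ m ≠ 0 := pow_ne_zero _ hsE
    have hlm : (l : E) ^ m ≠ 0 := pow_ne_zero _ hlE
    apply mul_right_cancel₀ hsm
    calc (a : E) * ((b' : E) * (s : E) ^ d) * (s : E) ^ m
        = ((a : E) * (s : E) ^ (m + d)) * (b' : E) := by rw [pow_add]; ring
      _ = (l : E) ^ d * (a' : E) * ((l : E) ^ m * (b' : E)) := by rw [e1, pow_add]; ring
      _ = (l : E) ^ d * (a' : E) * (b : E) * (s : E) ^ m := by rw [← e2]; ring

/-- the value group at an unramified place is generated by `l` -/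
theorem val_unram (κ : E →+* C) (l : ℕ) [hl : Fact l.Prime] (hl1 : ‖(l : C)‖ < 1)
    (he : eP E l (kerP κ) = 1) (x : E) (hx : ‖κ x‖ < 1) : ‖κ x‖ ≤ ‖(l : C)‖ := by
  by_cases h0 : x = 0
  · rw [h0, map_zero, norm_zero]
    exact norm_nonneg _
  obtain ⟨z, A, B, hz, -, -⟩ := val_aux κ l hl1 he x h0
  have hlE : (l : E) ≠ 0 := by exact_mod_cast hl.out.ne_zero
  have hlC : 0 < ‖(l : C)‖ := by
    rw [norm_pos_iff]
    have := (map_ne_zero κ).2 hlE
    simpa using this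
  rw [hz] at hx ⊢
  have hz1 : 1 ≤ z := by
    by_contra h
    have h1 : z ≤ 0 := by omega
    have := one_le_zpow_of_nonpos₀ hlC hl1.le h1
    linarith
  calc ‖(l : C)‖ ^ z ≤ ‖(l : C)‖ ^ (1 : ℤ) := zpow_le_zpow_right_of_le_one₀ hlC hl1.le hz1
    _ = ‖(l : C)‖ := zpow_one _

/-- the value group at an unramified place is generated by `l` -/
theorem val_unram' (κ : E →+* C) (l : ℕ) [hl : Fact l.Prime] (hl1 : ‖(l : C)‖ < 1)
    (he : eP E l (kerP κ) = 1) (x : E) (hx0 : x ≠ 0) : ∃ z : ℤ, ‖κ x‖ = ‖(l : C)‖ ^ z := by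
  obtain ⟨z, A, B, hz, -, -⟩ := val_aux κ l hl1 he x hx0
  exact ⟨z, hz⟩

theorem int_frob (κ : E →+* C) (l : ℕ) [hl : Fact l.Prime] (hl1 : ‖(l : C)‖ < 1) (a : 𝓞 E) :
    a ^ (l ^ fP E l (kerP κ)) - a ∈ kerP κ := by
  have hP := kerP_over κ l hl1
  have hmax : (kerP κ).IsMaximal := over_max E l hP
  have hne : kerP κ ≠ ⊥ := over_ne E l hP
  have hn := over_norm E l hP
  let _ := Ideal.Quotient.field (kerP κ)
  have hfin : Finite (𝓞 E ⧸ kerP κ) := Ideal.finiteQuotientOfFreeOfNeBot _ hne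
  have := Fintype.ofFinite (𝓞 E ⧸ kerP κ)
  rw [← Ideal.Quotient.eq_zero_iff_mem, map_sub, map_pow, ← hn, Ideal.absNorm_apply,
    Submodule.cardQuot_apply, Nat.card_eq_fintype_card, FiniteField.pow_card, sub_self]

/-- `x^(l^f) = x` modulo `l` at an unramified place -/
theorem frob_unram (κ : E →+* C) (l : ℕ) [hl : Fact l.Prime] (hl1 : ‖(l : C)‖ < 1)
    (he : eP E l (kerP κ) = 1) (x : E) (hx : ‖κ x‖ ≤ 1) :
    ‖κ x ^ (l ^ fP E l (kerP κ)) - κ x‖ ≤ ‖(l : C)‖ := by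
  obtain ⟨q, hq⟩ : ∃ q, q = l ^ fP E l (kerP κ) := ⟨_, rfl⟩
  have hq0 : q ≠ 0 := by rw [hq]; exact pow_ne_zero _ hl.out.ne_zero
  rw [← hq]
  by_cases h0 : x = 0
  · rw [h0, map_zero, zero_pow hq0, sub_self, norm_zero]
    exact norm_nonneg _
  obtain ⟨z, A, B, hz, hB, hAB⟩ := val_aux κ l hl1 he x h0
  have hlE : (l : E) ≠ 0 := by exact_mod_cast hl.out.ne_zero
  have hlC : 0 < ‖(l : C)‖ := by
    rw [norm_pos_iff]
    have := (map_ne_zero κ).2 hlE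
    simpa using this
  have hz0 : 0 ≤ z := by
    by_contra h
    have h1 : z < 0 := by omega
    have := one_lt_zpow_of_neg₀ hlC hl1 h1
    rw [hz] at hx
    linarith
  have hxB := hAB hz0
  have hBn := kerP_not κ hB
  have hBC : κ (B : E) ≠ 0 := by
    rw [← norm_ne_zero_iff, hBn]
    exact one_ne_zero
  have e1 : κ x = κ (A : E) / κ (B : E) := by
    rw [eq_div_iff hBC, ← map_mul, hxB]
  have hA' : ‖κ (A : E) ^ q - κ (A : E)‖ ≤ ‖(l : C)‖ := by
    have h := int_frob κ l hl1 A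
    rw [← hq, mem_kerP] at h
    have h' := val_unram κ l hl1 he _ h
    simpa using h'
  have hB' : ‖κ (B : E) ^ q - κ (B : E)‖ ≤ ‖(l : C)‖ := by
    have h := int_frob κ l hl1 B
    rw [← hq, mem_kerP] at h
    have h' := val_unram κ l hl1 he _ h
    simpa using h'
  have e2 : κ x ^ q - κ x = (κ (B : E) * (κ (A : E) ^ q - κ (A : E)) -
      κ (A : E) * (κ (B : E) ^ q - κ (B : E))) / (κ (B : E) ^ q * κ (B : E)) := by
    rw [e1, div_pow, div_sub_div _ _ (pow_ne_zero q hBC) hBC]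
    congr 1
    ring
  have e3 : ‖κ (B : E) ^ q * κ (B : E)‖ = 1 := by
    rw [norm_mul, norm_pow, hBn, one_pow, one_mul]
  rw [e2, norm_div, e3, div_one]
  refine (um_sub_le _ _).trans (max_le ?_ ?_)
  · rw [norm_mul, hBn, one_mul]
    exact hA'
  · rw [norm_mul]
    calc ‖κ (A : E)‖ * ‖κ (B : E) ^ q - κ (B : E)‖ ≤ 1 * ‖κ (B : E) ^ q - κ (B : E)‖ :=
          mul_le_mul_of_nonneg_right (int_norm κ A) (norm_nonneg _)
      _ ≤ ‖(l : C)‖ := by rw [one_mul]; exact hB'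

/-- **Frobenius at an unramified place.** `κ`, `κ'` two embeddings with unramified primes; if
`‖κ' x - κ x ^ l‖ < 1` and `‖κ x‖ ≤ 1`, `‖κ' x‖ ≤ 1` then `‖κ' x - κ x ^ l‖ ≤ ‖l‖`. -/
theorem frob_step (κ κ' : E →+* C) (l : ℕ) [hl : Fact l.Prime] (hl1 : ‖(l : C)‖ < 1)
    (he : eP E l (kerP κ) = 1) (he' : eP E l (kerP κ') = 1) (x : E) (hx : ‖κ x‖ ≤ 1)
    (hx' : ‖κ' x‖ ≤ 1) (h : ‖κ' x - κ x ^ l‖ < 1) : ‖κ' x - κ x ^ l‖ ≤ ‖(l : C)‖ := by
  have hlE : (l : E) ≠ 0 := by exact_mod_cast hl.out.ne_zero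
  have hlC : (l : C) ≠ 0 := by
    have := (map_ne_zero κ).2 hlE
    simpa using this
  have hf : ∀ k : E →+* C, 1 ≤ fP E l (kerP k) := by
    intro k
    have hk := kerP_over k l hl1
    have h3 := over_norm E l hk
    by_contra h4
    have h5 : fP E l (kerP k) = 0 := by omega
    rw [h5, pow_zero] at h3
    exact (over_max E l hk).ne_top (Ideal.absNorm_eq_one_iff.1 h3)
  have h3 := iter_close l (fP E l (kerP κ)) (κ x) hx _ (frob_unram κ l hl1 he x hx)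
    (fP E l (kerP κ'))
  have h4 := iter_close l (fP E l (kerP κ')) (κ' x) hx' _ (frob_unram κ' l hl1 he' x hx')
    (fP E l (kerP κ))
  rw [mul_comm] at h4
  exact frob_close l hl.out hlC hl1.le (fP E l (kerP κ) * fP E l (kerP κ'))
    (Nat.mul_pos (hf κ) (hf κ')) (κ x) (κ' x) hx hx' h3 h4 h

end Pool.Agent.H84.PT2
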